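import Mathlib

set_option autoImplicit false

/-!
# Finite metric spaces of type `ℓ¹`: minimal radii, quantiles, energy
-/

namespace Pool.Agent.T6.H83.FO

open Finset

variable {ι : Type} [Fintype ι]

open Classical in
/-- a ball of minimal radius with at least `q` points -/
lemma exists_min_radius (M : ι → ι → ℝ) (q : ℕ) (hq : 1 ≤ q) (hm : q ≤ Fintype.card ι) :
    ∃ x y : ι, q ≤ (univ.filter fun z => M x z ≤ M x y).card ∧
      ∀ (x' : ι) (R : ℝ), q ≤ (univ.filter fun z => M x' z ≤ R).card → M x y ≤ R := by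
  have hne : Nonempty ι := Fintype.card_pos_iff.1 (by omega)
  let P : Finset (ι × ι) := univ.filter fun a => q ≤ (univ.filter fun z => M a.1 z ≤ M a.1 a.2).card
  have hP : P.Nonempty := by
    obtain ⟨x⟩ := hne
    obtain ⟨y, _, hy⟩ := exists_max_image univ (fun y => M x y) ⟨x, mem_univ x⟩
    refine ⟨(x, y), ?_⟩
    simp only [P, mem_filter, mem_univ, true_and]
    rw [filter_true_of_mem (fun z _ => hy z (mem_univ z))]
    simpa using hm
  obtain ⟨a, haP, ha⟩ := exists_min_image P (fun a => M a.1 a.2) hP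
  refine ⟨a.1, a.2, (mem_filter.1 haP).2, ?_⟩
  intro x' R h
  have hne2 : (univ.filter fun z => M x' z ≤ R).Nonempty := by
    rw [← card_pos]; omega
  obtain ⟨y', hy', hmax⟩ := exists_max_image _ (fun y => M x' y) hne2
  have h1 : (x', y') ∈ P := by
    simp only [P, mem_filter, mem_univ, true_and]
    refine h.trans (card_le_card ?_)
    intro z hz
    exact mem_filter.2 ⟨mem_univ z, hmax z hz⟩
  exact (ha _ h1).trans (mem_filter.1 hy').2

open Classical in
/-- the `n` smallest values -/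
lemma exists_quantile (b : ι → ℝ) (n : ℕ) (hn : 1 ≤ n) (hm : n ≤ Fintype.card ι) :
    ∃ (Y : Finset ι) (α : ℝ), Y.card = n ∧ (∀ j ∈ Y, b j ≤ α) ∧
      (univ.filter fun j => b j < α).card < n := by
  have hne : Nonempty ι := Fintype.card_pos_iff.1 (by omega)
  let P : Finset ι := univ.filter fun i => n ≤ (univ.filter fun j => b j ≤ b i).card
  have hP : P.Nonempty := by
    obtain ⟨x⟩ := hne
    obtain ⟨y, _, hy⟩ := exists_max_image univ b ⟨x, mem_univ x⟩
    refine ⟨y, ?_⟩
    simp only [P, mem_filter, mem_univ, true_and]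
    rw [filter_true_of_mem (fun z _ => hy z (mem_univ z))]
    simpa using hm
  obtain ⟨i, hiP, hi⟩ := exists_min_image P b hP
  obtain ⟨Y, hY, hYc⟩ := exists_subset_card_eq (mem_filter.1 hiP).2
  refine ⟨Y, b i, hYc, fun j hj => (mem_filter.1 (hY hj)).2, ?_⟩
  by_contra h
  push Not at h
  have hne2 : (univ.filter fun j => b j < b i).Nonempty := by
    rw [← card_pos]; omega
  obtain ⟨y', hy', hmax⟩ := exists_max_image _ b hne2
  have h1 : y' ∈ P := by
    simp only [P, mem_filter, mem_univ, true_and]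
    refine h.trans (card_le_card ?_)
    intro z hz
    exact mem_filter.2 ⟨mem_univ z, hmax z hz⟩
  exact absurd (hi _ h1) (not_le.2 (mem_filter.1 hy').2)

omit [Fintype ι] in
/-- the kernel `min` is positive semidefinite -/
lemma min_kernel (lam : ι → ℝ) : ∀ (n : ℕ) (Y : Finset ι), Y.card = n → ∀ f : ι → ℝ,
    (∀ j ∈ Y, 0 ≤ f j) → 0 ≤ ∑ j ∈ Y, ∑ k ∈ Y, lam j * lam k * min (f j) (f k) := by
  classical
  intro n
  induction n with
  | zero =>
    intro Y hY f _
    rw [card_eq_zero] at hY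
    simp [hY]
  | succ n ih =>
    intro Y hY f hf
    have hne : Y.Nonempty := by rw [← card_pos]; omega
    obtain ⟨j0, hj0, hmin⟩ := exists_min_image Y f hne
    have h1 := ih (Y.erase j0) (by rw [card_erase_of_mem hj0]; omega) (fun j => f j - f j0)
      (fun j hj => sub_nonneg.2 (hmin j (mem_of_mem_erase hj)))
    have h2 : ∑ j ∈ Y, ∑ k ∈ Y, lam j * lam k * min (f j) (f k) =
        f j0 * (∑ j ∈ Y, lam j) ^ 2 +
        ∑ j ∈ Y, ∑ k ∈ Y, lam j * lam k * min (f j - f j0) (f k - f j0) := by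
      rw [sq, sum_mul_sum, mul_sum, ← sum_add_distrib]
      refine sum_congr rfl fun j _ => ?_
      rw [mul_sum, ← sum_add_distrib]
      refine sum_congr rfl fun k _ => ?_
      rw [min_sub_sub_right]
      ring
    have h3 : ∑ j ∈ Y, ∑ k ∈ Y, lam j * lam k * min (f j - f j0) (f k - f j0) =
        ∑ j ∈ Y.erase j0, ∑ k ∈ Y.erase j0, lam j * lam k * min (f j - f j0) (f k - f j0) := by
      symm
      apply sum_subset_zero_on_sdiff (erase_subset _ _)
      · intro j hj
        have : j = j0 := by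
          rw [mem_sdiff, mem_erase] at hj
          tauto
        subst this
        apply sum_eq_zero
        intro k hk
        rw [sub_self, min_eq_left (sub_nonneg.2 (hmin k hk)), mul_zero]
      · intro j hj
        apply sum_subset_zero_on_sdiff (erase_subset _ _)
        · intro k hk
          have : k = j0 := by
            rw [mem_sdiff, mem_erase] at hk
            tauto
          subst this
          rw [sub_self, min_eq_right (sub_nonneg.2 (hmin j (mem_of_mem_erase hj))), mul_zero]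
        · intro k _
          rfl
    rw [h2, h3]
    have h4 := hf j0 hj0
    positivity

/-- the kernel `|f j - f k|` is of negative type -/
lemma abs_kernel (lam : ι → ℝ) (h0 : ∑ j, lam j = 0) (f : ι → ℝ) :
    ∑ j, ∑ k, lam j * lam k * |f j - f k| ≤ 0 := by
  classical
  obtain ⟨m, hm⟩ : ∃ m : ℝ, ∀ j, m ≤ f j := by
    obtain ⟨m, hm⟩ := (Set.finite_range f).bddBelow
    exact ⟨m, fun j => hm ⟨j, rfl⟩⟩
  have h1 := min_kernel lam _ univ rfl (fun j => f j - m) (fun j _ => sub_nonneg.2 (hm j))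
  have h2 : ∀ j k, lam j * lam k * |f j - f k| =
      (lam j * (f j - m)) * lam k + lam j * (lam k * (f k - m)) -
        2 * (lam j * lam k * min (f j - m) (f k - m)) := by
    intro j k
    have h3 : |f j - f k| = (f j - m) + (f k - m) - 2 * min (f j - m) (f k - m) := by
      rcases le_total (f j) (f k) with h | h
      · rw [abs_of_nonpos (by linarith), min_eq_left (by linarith)]; ring
      · rw [abs_of_nonneg (by linarith), min_eq_right (by linarith)]; ring
    rw [h3]; ring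
  have h4 : ∑ j, ∑ k, lam j * lam k * |f j - f k| =
      (∑ j, lam j * (f j - m)) * (∑ k, lam k) + (∑ j, lam j) * (∑ k, lam k * (f k - m)) -
        2 * ∑ j, ∑ k, lam j * lam k * min (f j - m) (f k - m) := by
    rw [sum_mul_sum, sum_mul_sum, mul_sum, ← sum_add_distrib, ← sum_sub_distrib]
    refine sum_congr rfl fun j _ => ?_
    rw [mul_sum, ← sum_add_distrib, ← sum_sub_distrib]
    exact sum_congr rfl fun k _ => h2 j k
  rw [h4, h0]
  linarith

open Classical in
/-- weights of two sets -/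
noncomputable def wt (Y₁ Y₂ : Finset ι) (n : ℕ) (j : ι) : ℝ :=
  (if j ∈ Y₁ then (1 / n : ℝ) else 0) - (if j ∈ Y₂ then (1 / n : ℝ) else 0)

open Classical in
lemma sum_ind (Y : Finset ι) (a : ℝ) : ∑ j, (if j ∈ Y then a else 0) = Y.card * a := by
  rw [← sum_filter, filter_mem_eq_inter, univ_inter, sum_const, nsmul_eq_mul]

lemma wt_sum {Y₁ Y₂ : Finset ι} {n : ℕ} (h1 : Y₁.card = n) (h2 : Y₂.card = n) :
    ∑ j, wt Y₁ Y₂ n j = 0 := by
  unfold wt
  rw [sum_sub_distrib, sum_ind, sum_ind, h1, h2, sub_self]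

lemma wt_sq {Y₁ Y₂ : Finset ι} {n : ℕ} (hn : 1 ≤ n) (h1 : Y₁.card = n) (h2 : Y₂.card = n)
    (hd : Disjoint Y₁ Y₂) : ∑ j, wt Y₁ Y₂ n j ^ 2 = 2 / n := by
  classical
  have h : ∀ j, wt Y₁ Y₂ n j ^ 2 = (if j ∈ Y₁ then (1 / n : ℝ) ^ 2 else 0) +
      (if j ∈ Y₂ then (1 / n : ℝ) ^ 2 else 0) := by
    intro j
    unfold wt
    by_cases ha : j ∈ Y₁ <;> by_cases hb : j ∈ Y₂
    · exact absurd hb (disjoint_left.1 hd ha)
    · simp [ha, hb]
    · simp [ha, hb]
    · simp [ha, hb]
  simp_rw [h, sum_add_distrib, sum_ind, h1, h2]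
  have : (n : ℝ) ≠ 0 := by positivity
  field_simp
  norm_num

lemma wt_abs {Y₁ Y₂ : Finset ι} {n : ℕ} (hn : 1 ≤ n) (h1 : Y₁.card = n) (h2 : Y₂.card = n)
    (hd : Disjoint Y₁ Y₂) : ∑ j, |wt Y₁ Y₂ n j| = 2 := by
  classical
  have h : ∀ j, |wt Y₁ Y₂ n j| = (if j ∈ Y₁ then (1 / n : ℝ) else 0) +
      (if j ∈ Y₂ then (1 / n : ℝ) else 0) := by
    intro j
    unfold wt
    by_cases ha : j ∈ Y₁ <;> by_cases hb : j ∈ Y₂
    · exact absurd hb (disjoint_left.1 hd ha)
    · simp [ha, hb]
    · simp [ha, hb]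
    · simp [ha, hb]
  simp_rw [h, sum_add_distrib, sum_ind, h1, h2]
  have : (n : ℝ) ≠ 0 := by positivity
  field_simp
  norm_num

/-- energy of two sets separated by `f` -/
lemma sep_energy {Y₁ Y₂ : Finset ι} {n : ℕ} (hn : 1 ≤ n) (h1 : Y₁.card = n) (h2 : Y₂.card = n)
    (hd : Disjoint Y₁ Y₂) (f : ι → ℝ) {α β : ℝ} (hαβ : α ≤ β) (ha : ∀ j ∈ Y₁, f j ≤ α)
    (hb : ∀ j ∈ Y₂, β ≤ f j) :
    ∑ j, ∑ k, wt Y₁ Y₂ n j * wt Y₁ Y₂ n k * |f j - f k| ≤ -(2 * (β - α)) := by
  classical
  set lam := wt Y₁ Y₂ n with hlam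
  let g : ι → ℝ := fun j => if j ∈ Y₂ then f j - (β - α) else f j
  have hg := abs_kernel lam (wt_sum h1 h2) g
  let i1 : ι → ℝ := fun j => if j ∈ Y₁ then (1 / n : ℝ) else 0
  let i2 : ι → ℝ := fun j => if j ∈ Y₂ then (1 / n : ℝ) else 0
  have hl : ∀ j, lam j = i1 j - i2 j := fun j => rfl
  have key : ∀ j k, lam j * lam k * |f j - f k| = lam j * lam k * |g j - g k| -
      (β - α) * (i1 j * i2 k) - (β - α) * (i2 j * i1 k) := by
    intro j k
    rw [hl, hl]
    simp only [i1, i2, g]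
    by_cases j1 : j ∈ Y₁ <;> by_cases k1 : k ∈ Y₁
    · have j2 : j ∉ Y₂ := disjoint_left.1 hd j1
      have k2 : k ∉ Y₂ := disjoint_left.1 hd k1
      simp [j1, k1, j2, k2]
    · have j2 : j ∉ Y₂ := disjoint_left.1 hd j1
      by_cases k2 : k ∈ Y₂
      · have e1 := ha j j1
        have e2 := hb k k2
        simp only [j1, k1, j2, k2, if_true, if_false]
        rw [abs_of_nonpos (by linarith), abs_of_nonpos (by linarith)]
        ring
      · simp [j1, k1, j2, k2]
    · have k2 : k ∉ Y₂ := disjoint_left.1 hd k1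
      by_cases j2 : j ∈ Y₂
      · have e1 := ha k k1
        have e2 := hb j j2
        simp only [j1, k1, j2, k2, if_true, if_false]
        rw [abs_of_nonneg (by linarith), abs_of_nonneg (by linarith)]
        ring
      · simp [j1, k1, j2, k2]
    · by_cases j2 : j ∈ Y₂ <;> by_cases k2 : k ∈ Y₂
      · simp [j1, k1, j2, k2]
      · simp [j1, k1, j2, k2]
      · simp [j1, k1, j2, k2]
      · simp [j1, k1, j2, k2]
  have e1 : ∑ j, i1 j = 1 := by
    simp only [i1]
    rw [sum_ind, h1]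
    have : (n : ℝ) ≠ 0 := by positivity
    field_simp
  have e2 : ∑ j, i2 j = 1 := by
    simp only [i2]
    rw [sum_ind, h2]
    have : (n : ℝ) ≠ 0 := by positivity
    field_simp
  simp_rw [key, sum_sub_distrib, ← mul_sum, ← sum_mul, e1, e2]
  linarith

end Pool.Agent.T6.H83.FO
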