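import Pool.Agent.T6.H83.FO.Abs1

set_option autoImplicit false

/-!
# A set on which a sum of `s` similarities is an `ℓ¹`-distance has at most `C s ^ 4` elements
-/

namespace Pool.Agent.T6.H83.FO

open Finset

variable {ι U V : Type} [Fintype ι] [Fintype U] [Fintype V]

/-- the distance -/
noncomputable def Md (b : U → ι → ℝ) (j k : ι) : ℝ := (1 / 2) * ∑ u, |b u j - b u k|

omit [Fintype ι] in
lemma Md_comm (b : U → ι → ℝ) (j k : ι) : Md b j k = Md b k j := by
  unfold Md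
  simp_rw [abs_sub_comm]

omit [Fintype ι] in
lemma Md_nonneg (b : U → ι → ℝ) (j k : ι) : 0 ≤ Md b j k := by
  unfold Md
  have : 0 ≤ ∑ u, |b u j - b u k| := sum_nonneg fun u _ => abs_nonneg _
  linarith

omit [Fintype ι] in
lemma Md_tri (b : U → ι → ℝ) (j k l : ι) : Md b j l ≤ Md b j k + Md b k l := by
  unfold Md
  rw [← mul_add, ← sum_add_distrib]
  refine mul_le_mul_of_nonneg_left (sum_le_sum fun u _ => ?_) (by norm_num)
  exact abs_sub_le _ _ _

omit [Fintype ι] in
lemma Md_le {b : U → ι → ℝ} {j k : ι} {ρ : ℝ} (h : ∀ u, |b u j - b u k| ≤ ρ) :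
    Md b j k ≤ (1 / 2) * (Fintype.card U * ρ) := by
  unfold Md
  refine mul_le_mul_of_nonneg_left ?_ (by norm_num)
  refine (sum_le_sum fun u _ => h u).trans ?_
  rw [sum_const, nsmul_eq_mul, card_univ]

lemma energy_Md {Y₁ Y₂ : Finset ι} {n : ℕ} (hn : 1 ≤ n) (h1 : Y₁.card = n) (h2 : Y₂.card = n)
    (hd : Disjoint Y₁ Y₂) (b : U → ι → ℝ) (u : U) {α β : ℝ} (hαβ : α ≤ β)
    (ha : ∀ j ∈ Y₁, b u j ≤ α) (hb : ∀ j ∈ Y₂, β ≤ b u j) :
    ∑ j, ∑ k, wt Y₁ Y₂ n j * wt Y₁ Y₂ n k * Md b j k ≤ -(β - α) := by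
  classical
  have e : ∑ j, ∑ k, wt Y₁ Y₂ n j * wt Y₁ Y₂ n k * Md b j k =
      (1 / 2) * ∑ w, ∑ j, ∑ k, wt Y₁ Y₂ n j * wt Y₁ Y₂ n k * |b w j - b w k| := by
    have e0 : ∀ j k, wt Y₁ Y₂ n j * wt Y₁ Y₂ n k * Md b j k =
        ∑ w, (1 / 2) * (wt Y₁ Y₂ n j * wt Y₁ Y₂ n k * |b w j - b w k|) := by
      intro j k
      rw [Md, mul_sum, mul_sum]
      refine sum_congr rfl fun w _ => ?_
      ring
    simp_rw [e0]
    rw [sum_congr rfl (fun j _ => sum_comm), sum_comm, mul_sum]
    refine sum_congr rfl fun w _ => ?_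
    rw [mul_sum]
    refine sum_congr rfl fun j _ => ?_
    rw [mul_sum]
  have e2 : ∑ w, ∑ j, ∑ k, wt Y₁ Y₂ n j * wt Y₁ Y₂ n k * |b w j - b w k| ≤ -(2 * (β - α)) := by
    rw [← add_sum_erase _ _ (mem_univ u)]
    have h3 := sep_energy hn h1 h2 hd (b u) hαβ ha hb
    have h4 : ∑ w ∈ univ.erase u, ∑ j, ∑ k, wt Y₁ Y₂ n j * wt Y₁ Y₂ n k * |b w j - b w k| ≤ 0 :=
      sum_nonpos fun w _ => abs_kernel _ (wt_sum h1 h2) _
    linarith
  rw [e]
  linarith

open Classical in
/-- if no coordinate separates two large sets, then many points are near to each other -/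
lemma many_near (b : U → ι → ℝ) {n : ℕ} (hn : 1 ≤ n) {ρ : ℝ}
    (hm : 8 * Fintype.card U * n ≤ Fintype.card ι) (hU : 1 ≤ Fintype.card U) :
    (∃ (u : U) (Y₁ Y₂ : Finset ι) (α β : ℝ), Y₁.card = n ∧ Y₂.card = n ∧ α + ρ ≤ β ∧
      (∀ j ∈ Y₁, b u j ≤ α) ∧ (∀ j ∈ Y₂, β ≤ b u j)) ∨
    ∃ z : ι, Fintype.card ι ≤
      2 * (univ.filter fun z' => Md b z z' ≤ (1 / 2) * (Fintype.card U * ρ)).card := by
  have hnm : n ≤ Fintype.card ι := by nlinarith
  choose Y₁ α h1 h2 h3 using fun u => exists_quantile (b u) n hn hnm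
  choose Y₂ β h4 h5 h6 using fun u => exists_quantile (fun j => - b u j) n hn hnm
  by_cases hc : ∃ u, α u + ρ ≤ - β u
  · obtain ⟨u, hu⟩ := hc
    refine Or.inl ⟨u, Y₁ u, Y₂ u, α u, - β u, h1 u, h4 u, hu, h2 u, fun j hj => ?_⟩
    have := h5 u j hj
    linarith
  · right
    push Not at hc
    let Z : Finset ι := univ.filter fun j => ∀ u, α u ≤ b u j ∧ b u j ≤ - β u
    have hZc : (univ \ Z).card ≤ Fintype.card U * (2 * n) := by
      have hsub : univ \ Z ⊆ univ.biUnion fun u =>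
          (univ.filter fun j => b u j < α u) ∪ (univ.filter fun j => - b u j < β u) := by
        intro j hj
        have hj2 : j ∉ Z := (mem_sdiff.1 hj).2
        simp only [Z, mem_filter, mem_univ, true_and, not_forall, not_and_or, not_le] at hj2
        obtain ⟨u, hu⟩ := hj2
        refine mem_biUnion.2 ⟨u, mem_univ u, ?_⟩
        rcases hu with hu | hu
        · exact mem_union_left _ (mem_filter.2 ⟨mem_univ _, hu⟩)
        · exact mem_union_right _ (mem_filter.2 ⟨mem_univ _, by linarith⟩)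
      refine (card_le_card hsub).trans (card_biUnion_le.trans ?_)
      calc ∑ u : U, ((univ.filter fun j => b u j < α u) ∪
            (univ.filter fun j => - b u j < β u)).card ≤ ∑ _u : U, 2 * n := by
            refine sum_le_sum fun u _ => (card_union_le _ _).trans ?_
            have e1 := h3 u
            have e2 := h6 u
            omega
        _ = Fintype.card U * (2 * n) := by rw [sum_const, smul_eq_mul, card_univ]
    have hZ : Fintype.card ι = Z.card + (univ \ Z).card := by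
      rw [← card_univ, ← card_sdiff_add_card_eq_card (subset_univ Z)]
      ring
    have hZ2 : Fintype.card ι ≤ 2 * Z.card := by nlinarith
    have hZne : Z.Nonempty := by
      rw [← card_pos]
      by_contra h
      have : Fintype.card ι = 0 := by omega
      nlinarith
    obtain ⟨z, hz⟩ := hZne
    refine ⟨z, hZ2.trans (Nat.mul_le_mul_left 2 (card_le_card ?_))⟩
    intro z' hz'
    refine mem_filter.2 ⟨mem_univ _, Md_le fun u => ?_⟩
    have e1 := (mem_filter.1 hz).2 u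
    have e2 := (mem_filter.1 hz').2 u
    have e3 := hc u
    rw [abs_le]
    constructor <;> linarith [e1.1, e1.2, e2.1, e2.2]

theorem main_abs (b : U → ι → ℝ) (c : V → ι → ι → ℝ) (L : ℝ) (hL : 1 / 2 ≤ L) (q0 : ℕ)
    (hUV : Fintype.card U = Fintype.card V + 1) (hV : 1 ≤ Fintype.card V)
    (hsum : ∀ j k, j ≠ k → ∑ v, c v j k = Md b j k)
    (hle : ∀ v j k, j ≠ k → c v j k ≤ Md b j k + L)
    (hq : ∀ v j k l, j ≠ k → k ≠ l → j ≠ l → min (c v j k) (c v l k) - 2 * L ≤ c v j l)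
    (hker : ∀ (lam : ι → ℝ) (D κ : ℝ), 0 ≤ D → 0 < κ → κ < 1 →
      (∀ v j k, j ≠ k → c v j k ≤ D) →
      -((Fintype.card V * D + Real.log (1 / κ)) * ∑ j, lam j ^ 2) - κ * (∑ j, |lam j|) ^ 2 ≤
        ∑ j, ∑ k, lam j * lam k * Md b j k)
    (hgrow : ∀ W : Finset ι, q0 ≤ W.card → ∃ j ∈ W, ∃ k ∈ W, L ≤ Md b j k) :
    Fintype.card ι ≤ 2 * q0 + 20000 * Fintype.card V ^ 4 := by
  classical
  by_contra hcon
  push Not at hcon
  obtain ⟨s, hs⟩ : ∃ s : ℕ, s = Fintype.card V := ⟨_, rfl⟩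
  obtain ⟨m, hm⟩ : ∃ m : ℕ, m = Fintype.card ι := ⟨_, rfl⟩
  rw [← hs] at hUV hV hker hcon
  rw [← hm] at hcon
  have hs4 : s ≤ s ^ 4 := Nat.le_self_pow (by norm_num) s
  obtain ⟨x, y, hball, hmin⟩ := exists_min_radius (Md b) (max (s + 1) q0) (by omega)
    (by rw [← hm]; rw [max_le_iff]; constructor <;> omega)
  obtain ⟨r, hr⟩ : ∃ r : ℝ, r = Md b x y := ⟨_, rfl⟩
  rw [← hr] at hball hmin
  have hs0 : (1 : ℝ) ≤ s := by exact_mod_cast hV
  -- lower bound for `r`
  have hLr : L ≤ 2 * r := by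
    obtain ⟨j, hj, k, hk, h⟩ := hgrow _ ((le_max_right _ _).trans hball)
    have e1 := (mem_filter.1 hj).2
    have e2 := (mem_filter.1 hk).2
    have e3 := Md_tri b j x k
    rw [Md_comm b j x] at e3
    linarith
  have hr0 : 0 < r := by linarith
  -- all points are near to `x`
  have hdiam : ∀ k, Md b x k ≤ (8 * s + 1) * r := by
    intro k
    by_contra hk
    push Not at hk
    have hv : ∀ j ∈ univ.filter (fun z => Md b x z ≤ r), j ≠ k ∧ ∃ v, 8 * r < c v j k := by
      intro j hj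
      have e1 := (mem_filter.1 hj).2
      have hjk : j ≠ k := by
        rintro rfl
        nlinarith
      refine ⟨hjk, ?_⟩
      have e2 := Md_tri b x j k
      have e3 : ∑ _v : V, 8 * r < ∑ v, c v j k := by
        rw [hsum j k hjk, sum_const, nsmul_eq_mul, card_univ, ← hs]
        linarith
      obtain ⟨v, _, hv⟩ := exists_lt_of_sum_lt e3
      exact ⟨v, hv⟩
    have hne : Nonempty V := Fintype.card_pos_iff.1 (by omega)
    let φ : ι → V := fun j => if h : ∃ v, 8 * r < c v j k then h.choose else Classical.arbitrary V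
    have hφ : ∀ j, (∃ v, 8 * r < c v j k) → 8 * r < c (φ j) j k := by
      intro j h
      simp only [φ, dif_pos h]
      exact h.choose_spec
    obtain ⟨j, hj, j', hj', hjj, hφj⟩ := exists_ne_map_eq_of_card_lt_of_maps_to
      (s := univ.filter (fun z => Md b x z ≤ r)) (t := (univ : Finset V))
      (by rw [card_univ, ← hs]; omega) (f := φ) (fun j _ => mem_univ _)
    obtain ⟨hjk, e1⟩ := hv j hj
    obtain ⟨hjk', e2⟩ := hv j' hj'
    have e3 := hφ j e1
    have e4 := hφ j' e2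
    rw [← hφj] at e4
    have e5 := hq (φ j) j k j' hjk hjk'.symm hjj
    have e6 : 8 * r < min (c (φ j) j k) (c (φ j) j' k) := lt_min e3 e4
    have e7 := hle (φ j) j j' hjj
    have e8 := Md_tri b j x j'
    rw [Md_comm b j x] at e8
    have e9 := (mem_filter.1 hj).2
    have e10 := (mem_filter.1 hj').2
    linarith
  have hdiam2 : ∀ j k, Md b j k ≤ 18 * s * r := by
    intro j k
    have e1 := Md_tri b j x k
    rw [Md_comm b j x] at e1
    have e2 := hdiam j
    have e3 := hdiam k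
    nlinarith
  have hD : ∀ v j k, j ≠ k → c v j k ≤ 20 * s * r := by
    intro v j k hjk
    have e1 := hle v j k hjk
    have e2 := hdiam2 j k
    nlinarith
  -- the number `n`
  obtain ⟨n, hn⟩ : ∃ n : ℕ, n = m / (8 * (s + 1)) := ⟨_, rfl⟩
  have hnm : 8 * (s + 1) * n ≤ m := by rw [hn]; exact Nat.mul_div_le _ _
  have hnm2 : m < 8 * (s + 1) * (n + 1) := by
    rw [hn]
    exact Nat.lt_mul_div_succ m (by omega)
  have hn2 : 1250 * s ^ 3 ≤ n := by
    by_contra h
    push Not at h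
    have h1 : 8 * (s + 1) * (n + 1) ≤ 8 * (s + 1) * (1250 * s ^ 3) :=
      Nat.mul_le_mul_left _ (by omega)
    have h2 : 8 * (s + 1) * (1250 * s ^ 3) ≤ 8 * (2 * s) * (1250 * s ^ 3) :=
      Nat.mul_le_mul_right _ (by omega)
    have h3 : 8 * (2 * s) * (1250 * s ^ 3) = 20000 * s ^ 4 := by ring
    omega
  have hs3 : 1 ≤ s ^ 3 := Nat.one_le_pow _ _ hV
  have hn1 : 2 ≤ n := by omega
  obtain ⟨ρ, hρ⟩ : ∃ ρ : ℝ, ρ = r / (s + 1) := ⟨_, rfl⟩
  have hρ0 : 0 < ρ := by rw [hρ]; positivity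
  have hρ1 : (1 : ℝ) / 2 * (Fintype.card U * ρ) = r / 2 := by
    rw [hUV, hρ]
    push_cast
    field_simp
  rcases many_near b (n := n) (ρ := ρ) (by omega) (by rw [← hm, hUV]; exact hnm)
    (by rw [hUV]; omega) with ⟨u, Y₁, Y₂, α, β, h1, h2, h3, h4, h5⟩ | ⟨z, hz⟩
  · have hd : Disjoint Y₁ Y₂ := by
      rw [disjoint_left]
      intro j hj1 hj2
      have := h4 j hj1
      have := h5 j hj2
      linarith
    have e1 := energy_Md (by omega) h1 h2 hd b u (by linarith) h4 h5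
    have hnR : (2 : ℝ) ≤ n := by exact_mod_cast hn1
    have e2 := hker (wt Y₁ Y₂ n) (20 * s * r) (1 / n) (by positivity) (by positivity)
      (by rw [div_lt_one (by positivity)]; linarith) hD
    rw [wt_sq (by omega) h1 h2 hd, wt_abs (by omega) h1 h2 hd, one_div_one_div] at e2
    have e3 : ρ ≤ (s * (20 * s * r) + Real.log n) * (2 / n) + 1 / n * 2 ^ 2 := by linarith
    have hn0 : (0 : ℝ) < n := by linarith
    have e4 : ρ * n ≤ 40 * s ^ 2 * r + 2 * Real.log n + 4 := by
      have := mul_le_mul_of_nonneg_right e3 hn0.le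
      calc ρ * n ≤ ((s * (20 * s * r) + Real.log n) * (2 / n) + 1 / n * 2 ^ 2) * n := this
        _ = 40 * s ^ 2 * r + 2 * Real.log n + 4 := by
          field_simp
          ring
    have e5 : (n : ℝ) ≤ (s + 1) * (40 * s ^ 2 + 8 * Real.log n + 16) := by
      have h6 : 0 ≤ Real.log n := Real.log_nonneg (by linarith)
      have h7 : ρ * n = n * r / (s + 1) := by rw [hρ]; ring
      rw [h7, div_le_iff₀ (by positivity)] at e4
      have h8 : (40 * s ^ 2 * r + 2 * Real.log n + 4) ≤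
          (40 * s ^ 2 + 8 * Real.log n + 16) * r := by
        have : 1 ≤ 4 * r := by linarith
        nlinarith
      have h9 : n * r ≤ ((s + 1) * (40 * s ^ 2 + 8 * Real.log n + 16)) * r := by
        calc n * r ≤ (40 * s ^ 2 * r + 2 * Real.log n + 4) * (s + 1) := e4
          _ ≤ ((40 * s ^ 2 + 8 * Real.log n + 16) * r) * (s + 1) :=
            mul_le_mul_of_nonneg_right h8 (by positivity)
          _ = _ := by ring
      exact le_of_mul_le_mul_right h9 hr0
    have e6 : Real.log n ≤ n / (16 * (s + 1)) + 16 * (s + 1) - 1 := by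
      have h10 : (0 : ℝ) < 16 * (s + 1) := by positivity
      have h11 := Real.log_le_sub_one_of_pos (show (0 : ℝ) < n / (16 * (s + 1)) by positivity)
      have h12 := Real.log_le_sub_one_of_pos h10
      rw [Real.log_div (by positivity) (by positivity)] at h11
      linarith
    have e7 : (s + 1) * (8 * Real.log n) ≤ (n : ℝ) / 2 + 128 * (s + 1) ^ 2 := by
      calc (s + 1) * (8 * Real.log n) ≤ (s + 1) * (8 * (n / (16 * (s + 1)) + 16 * (s + 1))) := by
            apply mul_le_mul_of_nonneg_left _ (by positivity)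
            linarith
        _ = (n : ℝ) / 2 + 128 * (s + 1) ^ 2 := by
            field_simp
            ring
    have e8 : (1250 : ℝ) * s ^ 3 ≤ n := by exact_mod_cast hn2
    have e9 : (n : ℝ) / 2 ≤ (s + 1) * (40 * s ^ 2 + 16) + 128 * (s + 1) ^ 2 := by nlinarith
    have e10 : ((s : ℝ) + 1) * (40 * s ^ 2 + 16) + 128 * (s + 1) ^ 2 ≤ 624 * s ^ 3 := by
      have g1 : (1 : ℝ) ≤ s ^ 2 := by nlinarith
      have g2 : (s : ℝ) ≤ s ^ 2 := by nlinarith
      have g3 : (s : ℝ) ^ 2 ≤ s ^ 3 := by nlinarith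
      nlinarith
    have g4 : (1 : ℝ) ≤ s ^ 3 := one_le_pow₀ hs0
    linarith
  · rw [hρ1] at hz
    have h3 : max (s + 1) q0 ≤ (univ.filter fun z' => Md b z z' ≤ r / 2).card := by
      rw [max_le_iff]
      constructor <;> omega
    have := hmin z (r / 2) h3
    linarith

end Pool.Agent.T6.H83.FO
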