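import Pool.Agent.T6.H83.FO.Abs1

set_option autoImplicit false

/-!
# The kernels of the local similarities
-/

namespace Pool.Agent.T6.H83.FO

open Finset

variable {ι : Type}

/-- an ultrametric similarity is positive semidefinite -/
lemma ultra_psd (lam : ι → ℝ) : ∀ (n : ℕ) (Y : Finset ι), Y.card ≤ n → ∀ K : ι → ι → ℝ,
    (∀ j ∈ Y, ∀ k ∈ Y, 0 ≤ K j k) → (∀ j k, K j k = K k j) →
    (∀ j ∈ Y, ∀ k ∈ Y, ∀ l ∈ Y, min (K j k) (K k l) ≤ K j l) →
    0 ≤ ∑ j ∈ Y, ∑ k ∈ Y, lam j * lam k * K j k := by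
  classical
  intro n
  induction n with
  | zero =>
    intro Y hY K _ _ _
    have : Y = ∅ := card_eq_zero.1 (by omega)
    simp [this]
  | succ n ih =>
    intro Y hY K h0 hsym hu
    rcases Y.eq_empty_or_nonempty with hE | hne
    · simp [hE]
    obtain ⟨a, ha, hmin⟩ := exists_min_image (Y ×ˢ Y) (fun a => K a.1 a.2) (hne.product hne)
    obtain ⟨j0, k0⟩ := a
    obtain ⟨hj0, hk0⟩ := mem_product.1 ha
    simp only at hj0 hk0 hmin
    have hmin' : ∀ j ∈ Y, ∀ k ∈ Y, K j0 k0 ≤ K j k := fun j hj k hk =>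
      hmin (j, k) (mem_product.2 ⟨hj, hk⟩)
    obtain ⟨κ, hκ⟩ : ∃ κ, κ = K j0 k0 := ⟨_, rfl⟩
    rw [← hκ] at hmin'
    have hκ0 : 0 ≤ κ := by rw [hκ]; exact h0 j0 hj0 k0 hk0
    let K' : ι → ι → ℝ := fun j k => K j k - κ
    have hK'0 : ∀ j ∈ Y, ∀ k ∈ Y, 0 ≤ K' j k := fun j hj k hk => sub_nonneg.2 (hmin' j hj k hk)
    have hK's : ∀ j k, K' j k = K' k j := fun j k => by simp only [K']; rw [hsym]
    have hK'u : ∀ j ∈ Y, ∀ k ∈ Y, ∀ l ∈ Y, min (K' j k) (K' k l) ≤ K' j l := by
      intro j hj k hk l hl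
      simp only [K']
      rw [min_sub_sub_right]
      linarith [hu j hj k hk l hl]
    have e1 : ∑ j ∈ Y, ∑ k ∈ Y, lam j * lam k * K j k =
        κ * (∑ j ∈ Y, lam j) ^ 2 + ∑ j ∈ Y, ∑ k ∈ Y, lam j * lam k * K' j k := by
      rw [sq, sum_mul_sum, mul_sum, ← sum_add_distrib]
      refine sum_congr rfl fun j _ => ?_
      rw [mul_sum, ← sum_add_distrib]
      refine sum_congr rfl fun k _ => ?_
      simp only [K']
      ring
    let A : Finset ι := Y.filter fun k => 0 < K' j0 k ∨ k = j0
    have hAY : A ⊆ Y := filter_subset _ _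
    have hj0A : j0 ∈ A := mem_filter.2 ⟨hj0, Or.inr rfl⟩
    have hcross : ∀ k ∈ A, ∀ l ∈ Y \ A, K' k l = 0 := by
      intro k hk l hl
      obtain ⟨hlY, hlA⟩ := mem_sdiff.1 hl
      have hl1 : ¬ (0 < K' j0 l ∨ l = j0) := fun h => hlA (mem_filter.2 ⟨hlY, h⟩)
      push Not at hl1
      have hl2 : K' j0 l = 0 := le_antisymm hl1.1 (hK'0 j0 hj0 l hlY)
      obtain ⟨hkY, hk2⟩ := mem_filter.1 hk
      rcases hk2 with hk2 | hk2
      · have h3 := hK'u j0 hj0 k hkY l hlY
        rw [hl2] at h3
        rcases min_le_iff.1 h3 with h4 | h4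
        · linarith
        · exact le_antisymm h4 (hK'0 k hkY l hlY)
      · rw [hk2]; exact hl2
    have e2 : ∑ j ∈ Y, ∑ k ∈ Y, lam j * lam k * K' j k =
        ∑ j ∈ Y \ A, ∑ k ∈ Y \ A, lam j * lam k * K' j k +
          ∑ j ∈ A, ∑ k ∈ A, lam j * lam k * K' j k := by
      rw [← sum_sdiff hAY]
      congr 1
      · refine sum_congr rfl fun j hj => ?_
        rw [← sum_sdiff hAY]
        have : ∑ k ∈ A, lam j * lam k * K' j k = 0 := by
          refine sum_eq_zero fun k hk => ?_
          rw [hK's, hcross k hk j hj, mul_zero]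
        rw [this, add_zero]
      · refine sum_congr rfl fun j hj => ?_
        rw [← sum_sdiff hAY]
        have : ∑ k ∈ Y \ A, lam j * lam k * K' j k = 0 := by
          refine sum_eq_zero fun k hk => ?_
          rw [hcross j hj k hk, mul_zero]
        rw [this, zero_add]
    have h5 : 0 ≤ ∑ j ∈ Y \ A, ∑ k ∈ Y \ A, lam j * lam k * K' j k := by
      apply ih (Y \ A) _ K'
      · intro j hj k hk
        exact hK'0 j (mem_sdiff.1 hj).1 k (mem_sdiff.1 hk).1
      · exact hK's
      · intro j hj k hk l hl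
        exact hK'u j (mem_sdiff.1 hj).1 k (mem_sdiff.1 hk).1 l (mem_sdiff.1 hl).1
      · have : (Y \ A).card < Y.card := card_lt_card
          ⟨sdiff_subset, fun h => (mem_sdiff.1 (h hj0)).2 hj0A⟩
        omega
    have h6 : 0 ≤ ∑ j ∈ A, ∑ k ∈ A, lam j * lam k * K' j k := by
      by_cases hA : A = Y
      · have hk0A : k0 ∈ A := by rw [hA]; exact hk0
        obtain ⟨_, h7⟩ := mem_filter.1 hk0A
        have h8 : K' j0 k0 = 0 := by simp only [K']; rw [← hκ, sub_self]
        rw [h8] at h7
        have h9 : k0 = j0 := h7.resolve_left (lt_irrefl _)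
        rw [h9] at h8
        have h10 : ∀ k ∈ A, k = j0 := by
          intro k hk
          obtain ⟨hkY, h11⟩ := mem_filter.1 hk
          rcases h11 with h11 | h11
          · exfalso
            have h12 := hK'u j0 hj0 k hkY j0 hj0
            rw [h8, hK's k j0, min_self] at h12
            linarith
          · exact h11
        have h11 : A = {j0} := by
          ext k
          rw [mem_singleton]
          exact ⟨h10 k, fun h => by rw [h]; exact hj0A⟩
        rw [h11, sum_singleton, sum_singleton, h8, mul_zero]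
      · apply ih A _ K'
        · intro j hj k hk
          exact hK'0 j (hAY hj) k (hAY hk)
        · exact hK's
        · intro j hj k hk l hl
          exact hK'u j (hAY hj) k (hAY hk) l (hAY hl)
        · have : A.card < Y.card := card_lt_card
            ⟨hAY, fun h => hA (Subset.antisymm hAY h)⟩
          omega
    rw [e1, e2]
    have := mul_nonneg hκ0 (sq_nonneg (∑ j ∈ Y, lam j))
    linarith

/-- the off-diagonal part of an ultrametric similarity -/
lemma ultra_ker [Fintype ι] [DecidableEq ι] (lam : ι → ℝ) (c : ι → ι → ℝ) {D : ℝ} (hD : 0 ≤ D)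
    (h0 : ∀ j k, j ≠ k → 0 ≤ c j k) (hsym : ∀ j k, c j k = c k j)
    (hu : ∀ j k l, j ≠ k → k ≠ l → j ≠ l → min (c j k) (c k l) ≤ c j l)
    (hcD : ∀ j k, j ≠ k → c j k ≤ D) :
    -(D * ∑ j, lam j ^ 2) ≤ ∑ j, ∑ k, if j = k then 0 else lam j * lam k * c j k := by
  have h1 := ultra_psd lam _ univ le_rfl (fun j k => if j = k then D else c j k)
    (fun j _ k _ => by
      by_cases h : j = k
      · simp [h, hD]
      · simp [h, h0 j k h])
    (fun j k => by
      by_cases h : j = k
      · simp [h]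
      · simp [h, Ne.symm h, hsym j k])
    (fun j _ k _ l _ => by
      by_cases h1 : j = k
      · subst h1
        simp
      by_cases h2 : k = l
      · subst h2
        simp [h1]
      by_cases h3 : j = l
      · subst h3
        simp only [h1, if_false, if_true]
        exact (min_le_left _ _).trans (hcD j k h1)
      · simp only [h1, h2, h3, if_false]
        exact hu j k l h1 h2 h3)
  have h2 : ∑ j, ∑ k, lam j * lam k * (if j = k then D else c j k) =
      D * ∑ j, lam j ^ 2 + ∑ j, ∑ k, if j = k then 0 else lam j * lam k * c j k := by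
    rw [mul_sum, ← sum_add_distrib]
    refine sum_congr rfl fun j _ => ?_
    have h3 : D * lam j ^ 2 = ∑ k, if j = k then D * lam j ^ 2 else 0 := by simp
    rw [h3, ← sum_add_distrib]
    refine sum_congr rfl fun k _ => ?_
    by_cases h : j = k
    · subst h; simp; ring
    · simp [h]
  rw [h2] at h1
  linarith

section arch

/-- the ratio of two real numbers -/
noncomputable def wr (x : ι → ℝ) (j k : ι) : ℝ := (x j)⁻¹ * (x k)⁻¹ * min (x j ^ 2) (x k ^ 2)

lemma wr_symm (x : ι → ℝ) (j k : ι) : wr x j k = wr x k j := by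
  unfold wr
  rw [min_comm]; ring

lemma wr_le {x : ι → ℝ} {j k : ι} (hj : x j ≠ 0) (hk : x k ≠ 0) (h : |x j| ≤ |x k|) :
    wr x j k = x j / x k := by
  unfold wr
  rw [min_eq_left (sq_le_sq.2 h)]
  field_simp

lemma abs_wr_le {x : ι → ℝ} (hx : ∀ j, x j ≠ 0) (j k : ι) : |wr x j k| ≤ 1 := by
  rcases le_total |x j| |x k| with h | h
  · rw [wr_le (hx j) (hx k) h, abs_div, div_le_one (abs_pos.2 (hx k))]
    exact h
  · rw [wr_symm, wr_le (hx k) (hx j) h, abs_div, div_le_one (abs_pos.2 (hx j))]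
    exact h

lemma wr_self {x : ι → ℝ} {j : ι} (hj : x j ≠ 0) : wr x j j = 1 := by
  rw [wr_le hj hj le_rfl, div_self hj]

/-- the similarity -/
lemma abs_sub_eq_wr {x : ι → ℝ} (hx : ∀ j, x j ≠ 0) {j k : ι} (hjk : x j ≠ x k) :
    0 < 1 - wr x j k ∧ max (Real.log |x j|) (Real.log |x k|) - Real.log |x j - x k| =
      - Real.log (1 - wr x j k) := by
  have key : ∀ {j k : ι}, x j ≠ x k → |x j| ≤ |x k| →
      0 < 1 - wr x j k ∧ max (Real.log |x j|) (Real.log |x k|) - Real.log |x j - x k| =
      - Real.log (1 - wr x j k) := by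
    intro j k hjk h
    have h1 := wr_le (hx j) (hx k) h
    have h2 : x j - x k = - x k * (1 - wr x j k) := by
      rw [h1]
      have := hx k
      field_simp
      ring
    have h3 : 1 - wr x j k ≠ 0 := by
      intro h0
      rw [h0, mul_zero] at h2
      exact hjk (sub_eq_zero.1 h2)
    have h4 : 0 < 1 - wr x j k := by
      rcases lt_or_gt_of_ne h3 with h5 | h5
      · have := (abs_le.1 (abs_wr_le hx j k)).2
        linarith
      · exact h5
    refine ⟨h4, ?_⟩
    rw [max_eq_right (Real.log_le_log (abs_pos.2 (hx j)) h), h2, abs_mul, abs_neg,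
      abs_of_pos h4, Real.log_mul (abs_ne_zero.2 (hx k)) h3]
    ring
  rcases le_total |x j| |x k| with h | h
  · exact key hjk h
  · obtain ⟨h1, h2⟩ := key hjk.symm h
    rw [wr_symm, max_comm, abs_sub_comm]
    exact ⟨h1, h2⟩

variable [Fintype ι]

lemma wr_pow_psd (lam x : ι → ℝ) (n : ℕ) :
    0 ≤ ∑ j, ∑ k, lam j * lam k * wr x j k ^ n := by
  have h1 := min_kernel (fun j => lam j * ((x j)⁻¹) ^ n) _ univ rfl (fun j => (x j ^ 2) ^ n)
    (fun j _ => by positivity)
  refine h1.trans (le_of_eq ?_)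
  refine sum_congr rfl fun j _ => sum_congr rfl fun k _ => ?_
  unfold wr
  have h2 : min ((x j ^ 2) ^ n) ((x k ^ 2) ^ n) = (min (x j ^ 2) (x k ^ 2)) ^ n := by
    rcases le_total (x j ^ 2) (x k ^ 2) with h | h
    · rw [min_eq_left h, min_eq_left (pow_le_pow_left₀ (sq_nonneg _) h n)]
    · rw [min_eq_right h, min_eq_right (pow_le_pow_left₀ (sq_nonneg _) h n)]
  rw [h2, mul_pow, mul_pow]
  ring

lemma log_psd (lam x : ι → ℝ) (hx : ∀ j, x j ≠ 0) {ρ : ℝ} (h0 : 0 ≤ ρ) (h1 : ρ < 1) :
    0 ≤ ∑ j, ∑ k, lam j * lam k * (- Real.log (1 - ρ * wr x j k)) := by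
  have hs : HasSum (fun n : ℕ => ∑ j, ∑ k, lam j * lam k * ((ρ * wr x j k) ^ (n + 1) / (n + 1)))
      (∑ j, ∑ k, lam j * lam k * (- Real.log (1 - ρ * wr x j k))) := by
    refine hasSum_sum fun j _ => hasSum_sum fun k _ => ?_
    apply HasSum.mul_left
    apply Real.hasSum_pow_div_log_of_abs_lt_one
    rw [abs_mul, abs_of_nonneg h0]
    have := abs_wr_le hx j k
    nlinarith [abs_nonneg (wr x j k)]
  refine hs.nonneg fun n => ?_
  have h2 : ∑ j, ∑ k, lam j * lam k * ((ρ * wr x j k) ^ (n + 1) / (n + 1)) =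
      ρ ^ (n + 1) / (n + 1) * ∑ j, ∑ k, lam j * lam k * wr x j k ^ (n + 1) := by
    rw [mul_sum]
    refine sum_congr rfl fun j _ => ?_
    rw [mul_sum]
    refine sum_congr rfl fun k _ => ?_
    rw [mul_pow]
    ring
  rw [h2]
  have := wr_pow_psd lam x (n + 1)
  positivity

lemma arch_ker [DecidableEq ι] (lam x : ι → ℝ) (hx : ∀ j, x j ≠ 0)
    (hinj : Function.Injective x) {D κ : ℝ} (hD : 0 ≤ D) (hκ0 : 0 < κ) (hκ1 : κ < 1)
    (hcD : ∀ j k, j ≠ k → max (Real.log |x j|) (Real.log |x k|) - Real.log |x j - x k| ≤ D) :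
    -((D + Real.log (1 / κ)) * ∑ j, lam j ^ 2) - κ * (∑ j, |lam j|) ^ 2 ≤
      ∑ j, ∑ k, if j = k then 0 else lam j * lam k *
        (max (Real.log |x j|) (Real.log |x k|) - Real.log |x j - x k|) := by
  obtain ⟨η, hη⟩ : ∃ η : ℝ, η = κ * Real.exp (-D) := ⟨_, rfl⟩
  have hexp : 0 < Real.exp (-D) := Real.exp_pos _
  have hexp1 : Real.exp (-D) ≤ 1 := Real.exp_le_one_iff.2 (by linarith)
  have hη0 : 0 < η := by rw [hη]; positivity
  have hηκ : η ≤ κ := by rw [hη]; nlinarith
  have hpsd := log_psd lam x hx (ρ := 1 - η) (by linarith) (by linarith)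
  have hdiag : - Real.log (1 - (1 - η)) = D + Real.log (1 / κ) := by
    rw [sub_sub_cancel, hη, Real.log_mul hκ0.ne' hexp.ne', Real.log_exp, one_div, Real.log_inv]
    ring
  have hoff : ∀ j k, j ≠ k → |(max (Real.log |x j|) (Real.log |x k|) - Real.log |x j - x k|) -
      (- Real.log (1 - (1 - η) * wr x j k))| ≤ κ := by
    intro j k hjk
    have hne : x j ≠ x k := fun h => hjk (hinj h)
    obtain ⟨h1, h2⟩ := abs_sub_eq_wr hx hne
    have h3 := hcD j k hjk
    rw [h2] at h3 ⊢
    have h4 : Real.exp (-D) ≤ 1 - wr x j k := by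
      rw [← Real.exp_log h1]
      exact Real.exp_le_exp.2 (by linarith)
    have h5 := abs_le.1 (abs_wr_le hx j k)
    obtain ⟨t, ht⟩ : ∃ t : ℝ, t = η * wr x j k / (1 - wr x j k) := ⟨_, rfl⟩
    have h6 : 1 - (1 - η) * wr x j k = (1 - wr x j k) * (1 + t) := by
      rw [ht]
      field_simp
      ring
    have h7 : t ≤ κ := by
      rw [ht, div_le_iff₀ h1]
      have : κ * Real.exp (-D) ≤ κ * (1 - wr x j k) := mul_le_mul_of_nonneg_left h4 hκ0.le
      nlinarith
    have h8 : -(κ / 2) ≤ t := by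
      rw [ht, le_div_iff₀ h1]
      rcases le_total 0 (wr x j k) with h9 | h9
      · have : 0 ≤ η * wr x j k := by positivity
        nlinarith
      · nlinarith
    have h9 : 0 < 1 + t := by linarith
    have h10 : Real.log (1 - (1 - η) * wr x j k) = Real.log (1 - wr x j k) +
        Real.log (1 + t) := by
      rw [h6, Real.log_mul h1.ne' h9.ne']
    rw [h10]
    have h11 := Real.log_le_sub_one_of_pos h9
    have h12 := Real.log_le_sub_one_of_pos (inv_pos.2 h9)
    rw [Real.log_inv] at h12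
    have h13 : (1 + t)⁻¹ ≤ 1 + κ := by
      rw [inv_le_comm₀ h9 (by linarith), inv_le_iff_one_le_mul₀ (by linarith)]
      nlinarith
    rw [abs_le]
    constructor <;> linarith
  have h1 : ∑ j, ∑ k, lam j * lam k * (- Real.log (1 - (1 - η) * wr x j k)) ≤
      (D + Real.log (1 / κ)) * ∑ j, lam j ^ 2 + κ * (∑ j, |lam j|) ^ 2 +
      ∑ j, ∑ k, if j = k then 0 else lam j * lam k *
        (max (Real.log |x j|) (Real.log |x k|) - Real.log |x j - x k|) := by
    rw [sq, sum_mul_sum, mul_sum, mul_sum, ← sum_add_distrib, ← sum_add_distrib]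
    refine sum_le_sum fun j _ => ?_
    have h3 : (D + Real.log (1 / κ)) * lam j ^ 2 =
        ∑ k, if j = k then (D + Real.log (1 / κ)) * lam j ^ 2 else 0 := by simp
    rw [h3, mul_sum, ← sum_add_distrib, ← sum_add_distrib]
    refine sum_le_sum fun k _ => ?_
    by_cases h : j = k
    · subst h
      rw [wr_self (hx j), mul_one, hdiag]
      simp only [if_true]
      have : 0 ≤ κ * (|lam j| * |lam j|) := by positivity
      nlinarith
    · simp only [h, if_false]
      have h4 := hoff j k h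
      have h5 : |lam j * lam k * ((max (Real.log |x j|) (Real.log |x k|) - Real.log |x j - x k|) -
          (- Real.log (1 - (1 - η) * wr x j k)))| ≤ κ * (|lam j| * |lam k|) := by
        rw [abs_mul, abs_mul]
        have : 0 ≤ |lam j| * |lam k| := by positivity
        nlinarith
      have h6 := (abs_le.1 h5).1
      linarith
  linarith

end arch

/-- the archimedean similarity is almost ultrametric -/
lemma arch_quasi {a b z : ℝ} (ha : a ≠ 0) (hb : b ≠ 0) (hz : z ≠ 0) (hab : a ≠ b) (haz : a ≠ z)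
    (hbz : b ≠ z) :
    min (max (Real.log |a|) (Real.log |z|) - Real.log |a - z|)
        (max (Real.log |b|) (Real.log |z|) - Real.log |b - z|) - 2 * Real.log 2 ≤
      max (Real.log |a|) (Real.log |b|) - Real.log |a - b| := by
  have ha' := abs_pos.2 ha
  have hb' := abs_pos.2 hb
  have hz' := abs_pos.2 hz
  have hab' := abs_pos.2 (sub_ne_zero.2 hab)
  have haz' := abs_pos.2 (sub_ne_zero.2 haz)
  have hbz' := abs_pos.2 (sub_ne_zero.2 hbz)
  have hl2 : 0 < Real.log 2 := Real.log_pos (by norm_num)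
  -- in terms of the maximum of two absolute values
  have hmax : ∀ {u v : ℝ}, 0 < u → 0 < v → max (Real.log u) (Real.log v) = Real.log (max u v) := by
    intro u v hu hv
    rcases le_total u v with h | h
    · rw [max_eq_right h, max_eq_right (Real.log_le_log hu h)]
    · rw [max_eq_left h, max_eq_left (Real.log_le_log hv h)]
  rw [hmax ha' hz', hmax hb' hz', hmax ha' hb']
  have h1 : Real.log |a - b| ≤ Real.log 2 + Real.log (max |a| |b|) := by
    rw [← Real.log_mul (by norm_num) (lt_of_lt_of_le ha' (le_max_left _ _)).ne']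
    refine Real.log_le_log hab' ((abs_sub _ _).trans ?_)
    have e1 := le_max_left |a| |b|
    have e2 := le_max_right |a| |b|
    linarith
  by_cases hθ : min (Real.log (max |a| |z|) - Real.log |a - z|)
      (Real.log (max |b| |z|) - Real.log |b - z|) ≤ Real.log 2
  · linarith
  push Not at hθ
  obtain ⟨h2, h3⟩ := lt_min_iff.1 hθ
  have key : ∀ {u v : ℝ}, 0 < |u| → 0 < |v| → 0 < |u - v| →
      Real.log 2 < Real.log (max |u| |v|) - Real.log |u - v| → max |u| |v| ≤ 2 * |u| := by
    intro u v hu hv huv h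
    have h4 : Real.log (2 * |u - v|) < Real.log (max |u| |v|) := by
      rw [Real.log_mul (by norm_num) huv.ne']; linarith
    have h5 : 2 * |u - v| < max |u| |v| :=
      (Real.log_lt_log_iff (by positivity) (lt_of_lt_of_le hu (le_max_left _ _))).1 h4
    have h6 : |v| ≤ |u| + |u - v| := by
      have := abs_sub_abs_le_abs_sub v u
      rw [abs_sub_comm] at this
      linarith
    rcases le_total |v| |u| with h7 | h7
    · rw [max_eq_left h7]; linarith
    · rw [max_eq_right h7] at h5 ⊢; linarith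
  have h4 := key ha' hz' haz' h2
  have h5 := key hb' hz' hbz' h3
  obtain ⟨θ, hθ'⟩ : ∃ θ, θ = min (Real.log (max |a| |z|) - Real.log |a - z|)
      (Real.log (max |b| |z|) - Real.log |b - z|) := ⟨_, rfl⟩
  rw [← hθ']
  have h6 : θ ≤ Real.log (max |a| |z|) - Real.log |a - z| := by rw [hθ']; exact min_le_left _ _
  have h7 : θ ≤ Real.log (max |b| |z|) - Real.log |b - z| := by rw [hθ']; exact min_le_right _ _
  have h8 : |a - z| ≤ Real.exp (-θ) * (2 * |a|) := by
    have e1 : |a - z| ≤ Real.exp (-θ) * max |a| |z| := by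
      rw [← Real.log_le_log_iff haz' (by positivity), Real.log_mul (Real.exp_pos _).ne'
        (by positivity), Real.log_exp]
      linarith
    exact e1.trans (mul_le_mul_of_nonneg_left h4 (Real.exp_pos _).le)
  have h9 : |b - z| ≤ Real.exp (-θ) * (2 * |b|) := by
    have e1 : |b - z| ≤ Real.exp (-θ) * max |b| |z| := by
      rw [← Real.log_le_log_iff hbz' (by positivity), Real.log_mul (Real.exp_pos _).ne'
        (by positivity), Real.log_exp]
      linarith
    exact e1.trans (mul_le_mul_of_nonneg_left h5 (Real.exp_pos _).le)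
  have h10 : |a - b| ≤ Real.exp (-θ) * (4 * max |a| |b|) := by
    have e1 : |a - b| ≤ |a - z| + |b - z| := by
      have := abs_sub_le a z b
      rwa [abs_sub_comm z b] at this
    have e2 := le_max_left |a| |b|
    have e3 := le_max_right |a| |b|
    have e4 := (Real.exp_pos (-θ)).le
    nlinarith
  have h11 : Real.log |a - b| ≤ -θ + (2 * Real.log 2 + Real.log (max |a| |b|)) := by
    have hm : 0 < max |a| |b| := lt_of_lt_of_le ha' (le_max_left _ _)
    have e1 := Real.log_le_log hab' h10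
    rw [Real.log_mul (Real.exp_pos _).ne' (by positivity), Real.log_exp,
      Real.log_mul (by norm_num) hm.ne', show (4 : ℝ) = 2 ^ 2 by norm_num, Real.log_pow] at e1
    push_cast at e1
    exact e1
  linarith

end Pool.Agent.T6.H83.FO
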