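import Pool.Agent.T6.H83.FO.Abs2
import Pool.Agent.T6.H83.FO.Ker
import Pool.Agent.TH856.PG.RatSys

set_option autoImplicit false

/-!
# Sequences of rational numbers with `|x j - x k| = |x j| ≥ |x k|` for `j < k` at all but `s` primes
-/

namespace Pool.Agent.T6.H83.FO

open Finset
open Pool.Agent.TH856.PG (Pr qav hprodQ hfinQ qav_eq qav_split discQ)

lemma qav_na (p : Pr) (x y : ℚ) : qav p (x + y) ≤ max (qav p x) (qav p y) := by
  have := Fact.mk p.2
  rw [qav_eq, qav_eq, qav_eq]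
  exact_mod_cast @padicNorm.nonarchimedean p.1 _ x y

lemma qav_na_sub (p : Pr) (x y : ℚ) : qav p (x - y) ≤ max (qav p x) (qav p y) := by
  rw [sub_eq_add_neg]
  refine (qav_na p x (-y)).trans ?_
  rw [AbsoluteValue.map_neg]

lemma qav_pos (p : Pr) {x : ℚ} (hx : x ≠ 0) : 0 < qav p x := (qav p).pos hx

/-- the logarithm of the product of the absolute values at infinity and at the primes of `T` -/
noncomputable def Ah (T : Finset Pr) (z : ℚ) : ℝ :=
  Real.log |(z : ℝ)| + ∑ p ∈ T, Real.log (qav p z)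

lemma Ah_div (T : Finset Pr) {y z : ℚ} (hy : y ≠ 0) (hz : z ≠ 0) :
    Ah T (z / y) = Ah T z - Ah T y := by
  unfold Ah
  have hyR : (y : ℝ) ≠ 0 := by exact_mod_cast hy
  have hzR : (z : ℝ) ≠ 0 := by exact_mod_cast hz
  have h1 : ∑ p ∈ T, Real.log (qav p (z / y)) =
      ∑ p ∈ T, Real.log (qav p z) - ∑ p ∈ T, Real.log (qav p y) := by
    rw [← sum_sub_distrib]
    refine sum_congr rfl fun p _ => ?_
    rw [map_div₀, Real.log_div (qav_pos p hz).ne' (qav_pos p hy).ne']
  rw [h1, Rat.cast_div, abs_div, Real.log_div (abs_ne_zero.2 hzR) (abs_ne_zero.2 hyR)]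
  ring

lemma Ah_ge (T : Finset Pr) {t : ℚ} (ht : t ≠ 0) (h : ∀ p, p ∉ T → qav p t ≤ 1) (p0 : Pr)
    (hp0 : p0 ∉ T) : - Real.log (qav p0 t) ≤ Ah T t := by
  classical
  obtain ⟨S0, hS0⟩ := hfinQ t ht
  let S1 : Finset Pr := (S0 ∪ T) ∪ {p0}
  have h1 := hprodQ t ht S1 (fun p hp => mem_union_left _ (mem_union_left _ (hS0 p hp)))
  rw [pow_one, Rat.AbsoluteValue.real_eq_abs] at h1
  have h2 := congrArg Real.log h1
  rw [Real.log_prod (fun p _ => (qav_pos p ht).ne'), Real.log_inv] at h2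
  have hT : T ⊆ S1 := fun p hp => mem_union_left _ (mem_union_right _ hp)
  rw [← sum_sdiff hT] at h2
  have hp1 : p0 ∈ S1 \ T := mem_sdiff.2 ⟨mem_union_right _ (mem_singleton_self _), hp0⟩
  have h3 : ∑ p ∈ S1 \ T, Real.log (qav p t) ≤ Real.log (qav p0 t) := by
    rw [← add_sum_erase _ _ hp1]
    have : ∑ p ∈ (S1 \ T).erase p0, Real.log (qav p t) ≤ 0 := by
      refine sum_nonpos fun p hp => ?_
      exact Real.log_nonpos (qav_pos p ht).le (h p (mem_sdiff.1 (mem_of_mem_erase hp)).2)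
    linarith
  have h4 : ((|t| : ℚ) : ℝ) = |(t : ℝ)| := by push_cast; rfl
  unfold Ah
  rw [h4] at h2
  linarith

lemma Ah_mono (T : Finset Pr) {y z : ℚ} (hy : y ≠ 0) (hz : z ≠ 0)
    (h : ∀ p, p ∉ T → qav p z ≤ qav p y) (p0 : Pr) (hp0 : p0 ∉ T) :
    Ah T y + Real.log (qav p0 y / qav p0 z) ≤ Ah T z := by
  have h1 := Ah_ge T (div_ne_zero hz hy) (fun p hp => by
    rw [map_div₀, div_le_one (qav_pos p hy)]
    exact h p hp) p0 hp0
  rw [Ah_div T hy hz, map_div₀, ← Real.log_inv, inv_div] at h1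
  linarith

lemma Ah_le (T : Finset Pr) {y z : ℚ} (hy : y ≠ 0) (hz : z ≠ 0)
    (h : ∀ p, p ∉ T → qav p z ≤ qav p y) (p0 : Pr) (hp0 : p0 ∉ T) : Ah T y ≤ Ah T z := by
  have h1 := Ah_mono T hy hz h p0 hp0
  have h2 : 0 ≤ Real.log (qav p0 y / qav p0 z) := by
    apply Real.log_nonneg
    rw [le_div_iff₀ (qav_pos p0 hz), one_mul]
    exact h p0 hp0
  linarith

/-- units with unit differences -/
lemma res_card {ι : Type} (p : Pr) (S : Finset ι) (y : ι → ℚ) (h1 : ∀ j ∈ S, qav p (y j) = 1)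
    (h2 : ∀ j ∈ S, ∀ k ∈ S, j ≠ k → qav p (y j - y k) = 1) : S.card < p.1 := by
  classical
  have hF := Fact.mk p.2
  have hint : ∀ z : ℤ, qav p (z : ℚ) = 1 ↔ ¬ (p.1 : ℤ) ∣ z := by
    intro z
    rw [qav_eq, ← padicNorm.int_eq_one_iff]
    norm_cast
  have hint2 : ∀ z : ℤ, (p.1 : ℤ) ∣ z → qav p (z : ℚ) ≠ 1 := fun z h h' => (hint z).1 h' h
  have hle : ∀ z : ℤ, qav p (z : ℚ) ≤ 1 := by
    intro z
    rw [qav_eq]
    exact_mod_cast padicNorm.of_int z
  have hsplit : ∀ z : ℚ, qav p z * qav p ((z.den : ℤ) : ℚ) = qav p ((z.num : ℤ) : ℚ) := by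
    intro z
    rw [← map_mul]
    congr 1
    exact_mod_cast Rat.mul_den_eq_num z
  have hund : ∀ j ∈ S, ¬ (p.1 : ℤ) ∣ (y j).num ∧ ¬ (p.1 : ℤ) ∣ ((y j).den : ℤ) := by
    intro j hj
    have e1 := hsplit (y j)
    rw [h1 j hj, one_mul] at e1
    have hcop : ¬ ((p.1 : ℤ) ∣ (y j).num ∧ (p.1 : ℤ) ∣ ((y j).den : ℤ)) := by
      rintro ⟨a, b⟩
      have h3 := (y j).reduced
      have h4 : p.1 ∣ Nat.gcd (y j).num.natAbs (y j).den :=
        Nat.dvd_gcd (Int.natCast_dvd.1 a) (Int.natCast_dvd_natCast.1 b)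
      rw [h3] at h4
      exact p.2.one_lt.ne' (Nat.dvd_one.1 h4)
    constructor
    · intro a
      have h5 : ¬ (p.1 : ℤ) ∣ ((y j).den : ℤ) := fun b => hcop ⟨a, b⟩
      exact hint2 _ a (by rw [← e1]; exact (hint _).2 h5)
    · intro b
      have h5 : ¬ (p.1 : ℤ) ∣ (y j).num := fun a => hcop ⟨a, b⟩
      exact hint2 _ b (by rw [e1]; exact (hint _).2 h5)
  let φ : ι → ZMod p.1 := fun j => ((y j).num : ZMod p.1) * (((y j).den : ℤ) : ZMod p.1)⁻¹
  have hden : ∀ j ∈ S, (((y j).den : ℤ) : ZMod p.1) ≠ 0 := by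
    intro j hj h0
    exact (hund j hj).2 ((ZMod.intCast_zmod_eq_zero_iff_dvd _ _).1 h0)
  have hnum : ∀ j ∈ S, ((y j).num : ZMod p.1) ≠ 0 := by
    intro j hj h0
    exact (hund j hj).1 ((ZMod.intCast_zmod_eq_zero_iff_dvd _ _).1 h0)
  have hinj : Set.InjOn φ S := by
    intro j hj k hk hjk
    by_contra hne
    have hj' := hden j hj
    have hk' := hden k hk
    have e1 : ((y j).num : ZMod p.1) * (((y k).den : ℤ) : ZMod p.1) =
        ((y k).num : ZMod p.1) * (((y j).den : ℤ) : ZMod p.1) := by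
      simp only [φ] at hjk
      field_simp at hjk
      linear_combination hjk
    have e2 : (p.1 : ℤ) ∣ (y j).num * ((y k).den : ℤ) - (y k).num * ((y j).den : ℤ) := by
      rw [← ZMod.intCast_zmod_eq_zero_iff_dvd]
      push_cast
      push_cast at e1
      rw [e1, sub_self]
    have e3 : (((y j).num * ((y k).den : ℤ) - (y k).num * ((y j).den : ℤ) : ℤ) : ℚ) =
        (y j - y k) * ((((y j).den : ℤ) : ℚ) * (((y k).den : ℤ) : ℚ)) := by
      have f1 : (y j) * ((y j).den : ℚ) = ((y j).num : ℚ) := Rat.mul_den_eq_num (y j)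
      have f2 : (y k) * ((y k).den : ℚ) = ((y k).num : ℚ) := Rat.mul_den_eq_num (y k)
      push_cast
      linear_combination (-((y k).den : ℚ)) * f1 + ((y j).den : ℚ) * f2
    have e4 := hint2 _ e2
    rw [e3, map_mul, map_mul, h2 j hj k hk hne, (hint _).2 (hund j hj).2,
      (hint _).2 (hund k hk).2] at e4
    simp at e4
  have h3 : (S.image φ).card = S.card := card_image_of_injOn hinj
  have h4 : S.image φ ⊆ univ.erase 0 := by
    intro a ha
    obtain ⟨j, hj, rfl⟩ := mem_image.1 ha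
    exact mem_erase.2 ⟨mul_ne_zero (hnum j hj) (inv_ne_zero (hden j hj)), mem_univ _⟩
  have h5 := card_le_card h4
  rw [card_erase_of_mem (mem_univ _), card_univ, ZMod.card, h3] at h5
  have := p.2.two_le
  omega

/-- nonarchimedean similarity -/
lemma na_ultra (p : Pr) {a b z : ℚ} (ha : a ≠ 0) (hb : b ≠ 0) (hz : z ≠ 0) (hab : a ≠ b)
    (haz : a ≠ z) (hbz : b ≠ z) :
    0 ≤ max (Real.log (qav p a)) (Real.log (qav p b)) - Real.log (qav p (a - b)) ∧
    min (max (Real.log (qav p a)) (Real.log (qav p z)) - Real.log (qav p (a - z)))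
        (max (Real.log (qav p b)) (Real.log (qav p z)) - Real.log (qav p (b - z))) ≤
      max (Real.log (qav p a)) (Real.log (qav p b)) - Real.log (qav p (a - b)) := by
  have ha' := qav_pos p ha
  have hb' := qav_pos p hb
  have hz' := qav_pos p hz
  have hab' := qav_pos p (sub_ne_zero.2 hab)
  have haz' := qav_pos p (sub_ne_zero.2 haz)
  have hbz' := qav_pos p (sub_ne_zero.2 hbz)
  have hmx : ∀ {u v t : ℝ}, 0 < u → 0 < v → 0 < t → t ≤ max u v →
      Real.log t ≤ max (Real.log u) (Real.log v) := by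
    intro u v t hu hv ht h
    rcases le_max_iff.1 h with h | h
    · exact (Real.log_le_log ht h).trans (le_max_left _ _)
    · exact (Real.log_le_log ht h).trans (le_max_right _ _)
  have h0 : 0 ≤ max (Real.log (qav p a)) (Real.log (qav p b)) - Real.log (qav p (a - b)) :=
    sub_nonneg.2 (hmx ha' hb' hab' (qav_na_sub p a b))
  refine ⟨h0, ?_⟩
  have hne : ∀ {u v : ℚ}, u ≠ 0 → v ≠ 0 → u ≠ v → qav p u ≠ qav p v →
      max (Real.log (qav p u)) (Real.log (qav p v)) - Real.log (qav p (u - v)) ≤ 0 := by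
    have key : ∀ {u v : ℚ}, u ≠ 0 → v ≠ 0 → u ≠ v → qav p u < qav p v →
        max (Real.log (qav p u)) (Real.log (qav p v)) - Real.log (qav p (u - v)) ≤ 0 := by
      intro u v hu hv huv h
      have h1 : qav p v ≤ qav p (u - v) := by
        have h2 := qav_na_sub p u (u - v)
        rw [sub_sub_cancel] at h2
        rcases le_max_iff.1 h2 with h3 | h3
        · linarith
        · exact h3
      have h4 := Real.log_le_log (qav_pos p hu) h.le
      have h5 := Real.log_le_log (qav_pos p hv) h1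
      rw [max_eq_right h4]
      linarith
    intro u v hu hv huv h
    rcases lt_or_gt_of_ne h with h | h
    · exact key hu hv huv h
    · have := key hv hu huv.symm h
      rw [max_comm, show qav p (u - v) = qav p (v - u) from
        by rw [← AbsoluteValue.map_neg (qav p) (u - v), neg_sub]]
      exact this
  by_cases h1 : qav p a = qav p z
  · by_cases h2 : qav p b = qav p z
    · have h3 : qav p (a - b) ≤ max (qav p (a - z)) (qav p (b - z)) := by
        have := qav_na_sub p (a - z) (b - z)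
        rwa [sub_sub_sub_cancel_right] at this
      rw [h1, h2]
      simp only [max_self]
      rcases le_max_iff.1 h3 with h4 | h4
      · refine (min_le_left _ _).trans ?_
        linarith [Real.log_le_log hab' h4]
      · refine (min_le_right _ _).trans ?_
        linarith [Real.log_le_log hab' h4]
    · exact (min_le_right _ _).trans ((hne hb hz hbz h2).trans h0)
  · exact (min_le_left _ _).trans ((hne ha hz haz h1).trans h0)

end Pool.Agent.T6.H83.FO
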