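import Pool.Agent.T6.H83.FO.Core

set_option autoImplicit false

/-!
# The length of such sequences
-/

namespace Pool.Agent.T6.H83.FO

open Finset
open Pool.Agent.TH856.PG (Pr qav hprodQ hfinQ qav_eq qav_split discQ)

/-- the absolute values at infinity and at the primes of `T` -/
noncomputable def pl (T : Finset Pr) : Option T → ℚ → ℝ
  | none => fun z => |(z : ℝ)|
  | some p => fun z => qav p.1 z

lemma pl_none (T : Finset Pr) (z : ℚ) : pl T none z = |(z : ℝ)| := rfl

lemma pl_some (T : Finset Pr) (p : T) (z : ℚ) : pl T (some p) z = qav p.1 z := rfl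

lemma pl_pos (T : Finset Pr) (v : Option T) {z : ℚ} (hz : z ≠ 0) : 0 < pl T v z := by
  rcases v with _ | p
  · rw [pl_none]; exact abs_pos.2 (by exact_mod_cast hz)
  · rw [pl_some]; exact qav_pos _ hz

lemma pl_sub_comm (T : Finset Pr) (v : Option T) (y z : ℚ) : pl T v (y - z) = pl T v (z - y) := by
  rcases v with _ | p
  · rw [pl_none, pl_none]
    push_cast
    exact abs_sub_comm _ _
  · rw [pl_some, pl_some, ← AbsoluteValue.map_neg, neg_sub]

lemma sum_log_pl (T : Finset Pr) (z : ℚ) : ∑ v, Real.log (pl T v z) = Ah T z := by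
  rw [Fintype.sum_option, Ah, pl_none]
  congr 1
  exact sum_coe_sort T (fun p => Real.log (qav p z))

/-- the similarities -/
noncomputable def cs {m : ℕ} (T : Finset Pr) (x : Fin m → ℚ) (v : Option T) (j k : Fin m) : ℝ :=
  max (Real.log (pl T v (x j))) (Real.log (pl T v (x k))) - Real.log (pl T v (x j - x k))

/-- the coordinates -/
noncomputable def bs {m : ℕ} (T : Finset Pr) (x : Fin m → ℚ) : Option (Option T) → Fin m → ℝ
  | none => fun j => Ah T (x j)
  | some v => fun j => Real.log (pl T v (x j))

lemma cs_symm {m : ℕ} (T : Finset Pr) (x : Fin m → ℚ) (v : Option T) (j k : Fin m) :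
    cs T x v j k = cs T x v k j := by
  unfold cs
  rw [max_comm, pl_sub_comm]

section
variable {m : ℕ} {T : Finset Pr} {p0 : Pr} {x : Fin m → ℚ}

lemma cs_lower (hx : ∀ j, x j ≠ 0) (hinj : Function.Injective x) (v : Option T) {j k : Fin m}
    (hjk : j ≠ k) : (if v = none then - Real.log 2 else 0) ≤ cs T x v j k := by
  have hne : x j ≠ x k := fun h => hjk (hinj h)
  rcases v with _ | p
  · simp only [if_true]
    unfold cs
    rw [pl_none, pl_none, pl_none]
    have ha : (x j : ℝ) ≠ 0 := by exact_mod_cast hx j
    have hb : (x k : ℝ) ≠ 0 := by exact_mod_cast hx k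
    have ha' := abs_pos.2 ha
    have hb' := abs_pos.2 hb
    have h1 : 0 < |((x j - x k : ℚ) : ℝ)| := abs_pos.2 (by exact_mod_cast sub_ne_zero.2 hne)
    have h2 : |((x j - x k : ℚ) : ℝ)| ≤ 2 * max |(x j : ℝ)| |(x k : ℝ)| := by
      push_cast
      refine (abs_sub _ _).trans ?_
      have e1 := le_max_left |(x j : ℝ)| |(x k : ℝ)|
      have e2 := le_max_right |(x j : ℝ)| |(x k : ℝ)|
      linarith
    have h3 := Real.log_le_log h1 h2
    rw [Real.log_mul (by norm_num) (lt_of_lt_of_le ha' (le_max_left _ _)).ne'] at h3
    have h4 : Real.log (max |(x j : ℝ)| |(x k : ℝ)|) ≤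
        max (Real.log |(x j : ℝ)|) (Real.log |(x k : ℝ)|) := by
      rcases le_total |(x j : ℝ)| |(x k : ℝ)| with h | h
      · rw [max_eq_right h]; exact le_max_right _ _
      · rw [max_eq_left h]; exact le_max_left _ _
    linarith
  · simp only [reduceCtorEq, if_false]
    have h3 : ∃ z : ℚ, z ≠ 0 ∧ x j ≠ z ∧ x k ≠ z := by
      by_cases h : x j = 1 ∨ x k = 1
      · by_cases h' : x j = 2 ∨ x k = 2
        · refine ⟨3, by norm_num, ?_, ?_⟩ <;>
          · intro h0
            rcases h with h | h <;> rcases h' with h' | h' <;> rw [h0] at * <;> norm_num at * <;>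
              simp_all
        · push Not at h'
          exact ⟨2, by norm_num, h'.1, h'.2⟩
      · push Not at h
        exact ⟨1, by norm_num, h.1, h.2⟩
    obtain ⟨z, hz, h4, h5⟩ := h3
    exact (na_ultra p.1 (hx j) (hx k) hz hne h4 h5).1

lemma sum_cs (hp0 : p0 ∉ T) (hx : ∀ j, x j ≠ 0) (hinj : Function.Injective x)
    (h : ∀ p, p ∉ T → ∀ j k, j < k → qav p (x j - x k) = qav p (x j) ∧
      qav p (x k) ≤ qav p (x j)) {j k : Fin m} (hjk : j ≠ k) :
    ∑ v, cs T x v j k = Md (bs T x) j k := by
  have key : ∀ {j k : Fin m}, j < k → ∑ v, cs T x v j k = Md (bs T x) j k := by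
    intro j k hjk
    have hne : x j - x k ≠ 0 := sub_ne_zero.2 fun h => hjk.ne (hinj h)
    have h1 : Ah T (x j - x k) = Ah T (x j) :=
      le_antisymm (Ah_le T hne (hx j) (fun p hp => (h p hp j k hjk).1.ge) p0 hp0)
        (Ah_le T (hx j) hne (fun p hp => (h p hp j k hjk).1.le) p0 hp0)
    have h2 : Ah T (x j) ≤ Ah T (x k) :=
      Ah_le T (hx j) (hx k) (fun p hp => (h p hp j k hjk).2) p0 hp0
    unfold cs
    rw [sum_sub_distrib, sum_log_pl, h1]
    unfold Md
    rw [Fintype.sum_option (fun u => |bs T x u j - bs T x u k|)]
    have h3 : |bs T x none j - bs T x none k| = Ah T (x k) - Ah T (x j) := by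
      show |Ah T (x j) - Ah T (x k)| = _
      rw [abs_of_nonpos (by linarith)]; ring
    have h4 : ∑ v, max (Real.log (pl T v (x j))) (Real.log (pl T v (x k))) =
        (1 / 2) * (Ah T (x j) + Ah T (x k) + ∑ v, |bs T x (some v) j - bs T x (some v) k|) := by
      rw [← sum_log_pl T (x j), ← sum_log_pl T (x k), ← sum_add_distrib, ← sum_add_distrib,
        mul_sum]
      refine sum_congr rfl fun v _ => ?_
      show max (Real.log (pl T v (x j))) (Real.log (pl T v (x k))) = (1 / 2) *
        (Real.log (pl T v (x j)) + Real.log (pl T v (x k)) +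
          |Real.log (pl T v (x j)) - Real.log (pl T v (x k))|)
      rcases le_total (Real.log (pl T v (x j))) (Real.log (pl T v (x k))) with h5 | h5
      · rw [max_eq_right h5, abs_of_nonpos (by linarith)]; ring
      · rw [max_eq_left h5, abs_of_nonneg (by linarith)]; ring
    rw [h3, h4]
    ring
  rcases lt_or_gt_of_ne hjk with h1 | h1
  · exact key h1
  · rw [Md_comm, ← key h1]
    exact sum_congr rfl fun v _ => cs_symm T x v j k

lemma cs_quasi (hx : ∀ j, x j ≠ 0) (hinj : Function.Injective x) (v : Option T) {j k l : Fin m}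
    (hjk : j ≠ k) (hkl : k ≠ l) (hjl : j ≠ l) :
    min (cs T x v j k) (cs T x v l k) - 2 * Real.log 2 ≤ cs T x v j l := by
  have h1 : x j ≠ x k := fun h => hjk (hinj h)
  have h2 : x l ≠ x k := fun h => hkl (hinj h).symm
  have h3 : x j ≠ x l := fun h => hjl (hinj h)
  rcases v with _ | p
  · unfold cs
    simp only [pl_none]
    push_cast
    exact arch_quasi (by exact_mod_cast hx j) (by exact_mod_cast hx l) (by exact_mod_cast hx k)
      (by exact_mod_cast h3) (by exact_mod_cast h1) (by exact_mod_cast h2)
  · have h4 := (na_ultra p.1 (hx j) (hx l) (hx k) h3 h1 h2).2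
    have h5 : 0 < Real.log 2 := Real.log_pos (by norm_num)
    unfold cs
    simp only [pl_some]
    linarith

theorem core (hp0 : p0 ∉ T) (hx : ∀ j, x j ≠ 0) (hinj : Function.Injective x)
    (h : ∀ p, p ∉ T → ∀ j k, j < k → qav p (x j - x k) = qav p (x j) ∧
      qav p (x k) ≤ qav p (x j)) : m ≤ 2 * p0.1 + 20000 * (T.card + 1) ^ 4 := by
  classical
  have hcV : Fintype.card (Option T) = T.card + 1 := by
    rw [Fintype.card_option, Fintype.card_coe]
  have hlog2 : 0 < Real.log 2 := Real.log_pos (by norm_num)
  have hMself : ∀ j, Md (bs T x) j j = 0 := by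
    intro j
    unfold Md
    simp
  have hmain := main_abs (ι := Fin m) (U := Option (Option T)) (V := Option T) (bs T x) (cs T x)
    (Real.log 2) (by linarith [Real.log_two_gt_d9]) p0.1 (by rw [Fintype.card_option])
    (by rw [hcV]; omega)
    (fun j k hjk => sum_cs hp0 hx hinj h hjk)
    (fun v j k hjk => by
      have h1 := sum_cs hp0 hx hinj h hjk
      have h2 : cs T x v j k - (if v = none then - Real.log 2 else 0) ≤
          ∑ w, (cs T x w j k - (if w = none then - Real.log 2 else 0)) :=
        single_le_sum (f := fun w => cs T x w j k - (if w = none then - Real.log 2 else 0))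
          (fun w _ => sub_nonneg.2 (cs_lower hx hinj w hjk)) (mem_univ v)
      rw [sum_sub_distrib, h1, sum_ite_eq' univ none (fun _ => - Real.log 2)] at h2
      simp only [mem_univ, if_true] at h2
      have h3 : (if v = none then - Real.log 2 else 0) ≤ 0 := by
        split_ifs
        · linarith
        · exact le_rfl
      linarith)
    (fun v j k l hjk hkl hjl => cs_quasi hx hinj v hjk hkl hjl)
    (by
      intro lam D κ hD hκ0 hκ1 hcD
      have e1 : ∑ j, ∑ k, lam j * lam k * Md (bs T x) j k =
          ∑ v, ∑ j, ∑ k, if j = k then 0 else lam j * lam k * cs T x v j k := by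
        have e0 : ∀ j k, lam j * lam k * Md (bs T x) j k =
            ∑ v, if j = k then 0 else lam j * lam k * cs T x v j k := by
          intro j k
          by_cases hjk : j = k
          · subst hjk
            simp [hMself]
          · simp only [hjk, if_false]
            rw [← mul_sum, sum_cs hp0 hx hinj h hjk]
        simp_rw [e0]
        rw [sum_congr rfl (fun j _ => sum_comm), sum_comm]
      rw [e1, Fintype.sum_option, hcV]
      have e2 : ∀ p : T, -(D * ∑ j, lam j ^ 2) ≤
          ∑ j, ∑ k, if j = k then 0 else lam j * lam k * cs T x (some p) j k := by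
        intro p
        apply ultra_ker lam (cs T x (some p)) hD
        · intro j k hjk
          have := cs_lower hx hinj (some p) hjk
          simpa using this
        · intro j k
          exact cs_symm T x (some p) j k
        · intro j k l hjk hkl hjl
          have h1 : x j ≠ x k := fun h => hjk (hinj h)
          have h2 : x l ≠ x k := fun h => hkl (hinj h).symm
          have h3 : x j ≠ x l := fun h => hjl (hinj h)
          rw [cs_symm T x (some p) k l]
          exact (na_ultra p.1 (hx j) (hx l) (hx k) h3 h1 h2).2
        · intro j k hjk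
          exact hcD (some p) j k hjk
      have e3 : -((D + Real.log (1 / κ)) * ∑ j, lam j ^ 2) - κ * (∑ j, |lam j|) ^ 2 ≤
          ∑ j, ∑ k, if j = k then 0 else lam j * lam k * cs T x none j k := by
        have h1 := arch_ker lam (fun j => ((x j : ℚ) : ℝ)) (fun j => by exact_mod_cast hx j)
          (fun j k hjk => hinj (by
            have h9 : ((x j : ℚ) : ℝ) = ((x k : ℚ) : ℝ) := hjk
            exact_mod_cast h9)) hD hκ0 hκ1 (fun j k hjk => by
            have := hcD none j k hjk
            unfold cs at this
            simp only [pl_none] at this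
            push_cast at this
            exact this)
        refine h1.trans (le_of_eq ?_)
        refine sum_congr rfl fun j _ => sum_congr rfl fun k _ => ?_
        by_cases hjk : j = k
        · simp [hjk]
        · simp only [hjk, if_false]
          unfold cs
          simp only [pl_none]
          push_cast
          rfl
      have e4 : ∑ _p : T, -(D * ∑ j, lam j ^ 2) ≤
          ∑ p : T, ∑ j, ∑ k, if j = k then 0 else lam j * lam k * cs T x (some p) j k :=
        sum_le_sum fun p _ => e2 p
      rw [sum_const, nsmul_eq_mul, card_univ, Fintype.card_coe] at e4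
      push_cast
      linarith)
    (by
      intro W hW
      -- two elements with different absolute values at `p0`
      have h1 : ∃ j ∈ W, ∃ k ∈ W, qav p0 (x k) < qav p0 (x j) := by
        by_contra hcon
        push Not at hcon
        have hne : W.Nonempty := by
          rw [← card_pos]
          have := p0.2.pos
          omega
        obtain ⟨j0, hj0⟩ := hne
        have h2 : ∀ j ∈ W, qav p0 (x j) = qav p0 (x j0) := fun j hj =>
          le_antisymm (hcon j hj j0 hj0) (hcon j0 hj0 j hj)
        have h3 := res_card p0 W (fun j => x j / x j0) (fun j hj => by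
            show qav p0 (x j / x j0) = 1
            rw [map_div₀, h2 j hj, div_self (qav_pos p0 (hx j0)).ne'])
          (fun j hj k hk hjk => by
            show qav p0 (x j / x j0 - x k / x j0) = 1
            rw [← sub_div, map_div₀]
            have h4 : qav p0 (x j - x k) = qav p0 (x j0) := by
              rcases lt_or_gt_of_ne hjk with h5 | h5
              · rw [(h p0 hp0 j k h5).1, h2 j hj]
              · rw [← AbsoluteValue.map_neg, neg_sub, (h p0 hp0 k j h5).1, h2 k hk]
            rw [h4, div_self (qav_pos p0 (hx j0)).ne'])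
        omega
      obtain ⟨j, hj, k, hk, hlt⟩ := h1
      have hjk : j < k := by
        by_contra hn
        rcases (not_lt.1 hn).lt_or_eq with h5 | h5
        · exact absurd ((h p0 hp0 k j h5).2) (not_le.2 hlt)
        · rw [h5] at hlt
          exact lt_irrefl _ hlt
      refine ⟨j, hj, k, hk, ?_⟩
      have h6 := Ah_mono T (hx j) (hx k) (fun p hp => (h p hp j k hjk).2) p0 hp0
      have h7 : (2 : ℝ) ≤ qav p0 (x j) / qav p0 (x k) := by
        rw [← map_div₀]
        apply discQ
        rw [map_div₀, one_lt_div (qav_pos p0 (hx k))]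
        exact hlt
      have h8 := Real.log_le_log (by norm_num) h7
      have h9 : Ah T (x k) - Ah T (x j) ≤ Md (bs T x) j k := by
        unfold Md
        rw [Fintype.sum_option]
        have g1 : Ah T (x k) - Ah T (x j) ≤ |bs T x none j - bs T x none k| := by
          show _ ≤ |Ah T (x j) - Ah T (x k)|
          rw [abs_sub_comm]
          exact le_abs_self _
        have g2 : Ah T (x k) - Ah T (x j) ≤
            ∑ v, |bs T x (some v) j - bs T x (some v) k| := by
          rw [← sum_log_pl T (x k), ← sum_log_pl T (x j), ← sum_sub_distrib]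
          refine sum_le_sum fun v _ => ?_
          show _ ≤ |Real.log (pl T v (x j)) - Real.log (pl T v (x k))|
          rw [abs_sub_comm]
          exact le_abs_self _
        linarith
      linarith)
  rw [Fintype.card_fin, hcV] at hmain
  exact hmain

end

end Pool.Agent.T6.H83.FO
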