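import Mathlib

set_option autoImplicit false

/-!
# A small prime outside a finite set
-/

namespace Pool.Agent.T6.H83.FO

open Finset

/-- a small prime outside a finite set -/
lemma small_prime (T : Finset ℕ) {y : ℕ} (hy : T.card < y ^ 3) :
    ∃ p, p.Prime ∧ p ∉ T ∧ p ≤ 32 * y ^ 4 := by
  by_contra hcon
  push Not at hcon
  have hy1 : 1 ≤ y := by
    rcases Nat.eq_zero_or_pos y with h | h
    · rw [h] at hy; simp at hy
    · exact h
  set X := 32 * y ^ 4 with hX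
  have h1 : Nat.primesLE X ⊆ T := by
    intro p hp
    rw [Nat.mem_primesLE] at hp
    by_contra hpT
    exact absurd (hcon p hp.2 hpT) (not_lt.2 hp.1)
  have h2 : (Nat.primeCounting X : ℝ) < (y : ℝ) ^ 3 := by
    have h3 : Nat.primeCounting X ≤ T.card := by
      rw [← Nat.primesLE_card_eq_primeCounting]
      exact card_le_card h1
    exact_mod_cast lt_of_le_of_lt h3 hy
  have h3 := Chebyshev.pi_ge X
  have hyR : (1 : ℝ) ≤ y := by exact_mod_cast hy1
  have hXR : (X : ℝ) = 32 * (y : ℝ) ^ 4 := by rw [hX]; push_cast; ring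
  have hlogy : Real.log y ≤ y := (Real.log_le_sub_one_of_pos (by linarith)).trans (by linarith)
  have hl2 := Real.log_two_lt_d9
  have hl2' := Real.log_two_gt_d9
  have hX1 : (32 : ℝ) ≤ X := by
    rw [hXR]
    have : (1 : ℝ) ≤ (y : ℝ) ^ 4 := one_le_pow₀ hyR
    linarith
  have hlogX : Real.log X = 5 * Real.log 2 + 4 * Real.log y := by
    rw [hXR, Real.log_mul (by norm_num) (by positivity), Real.log_pow,
      show (32 : ℝ) = 2 ^ 5 by norm_num, Real.log_pow]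
    push_cast
    ring
  have hlogX0 : 0 < Real.log X := Real.log_pos (by linarith)
  have h4 : Real.log (X + 1) ≤ Real.log 2 + Real.log X := by
    rw [← Real.log_mul (by norm_num) (by linarith)]
    exact Real.log_le_log (by linarith) (by linarith)
  rw [div_le_iff₀ hlogX0] at h3
  have h5 : (X : ℝ) * Real.log 2 - Real.log (X + 1) ≤ (y : ℝ) ^ 3 * Real.log X :=
    h3.trans (mul_le_mul_of_nonneg_right h2.le hlogX0.le)
  have h6 : Real.log X ≤ 7.5 * y := by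
    rw [hlogX]
    nlinarith
  have h7 : (y : ℝ) ^ 3 * Real.log X ≤ 7.5 * (y : ℝ) ^ 4 := by
    calc _ ≤ (y : ℝ) ^ 3 * (7.5 * y) := mul_le_mul_of_nonneg_left h6 (by positivity)
      _ = _ := by ring
  have h8 : (y : ℝ) ≤ (y : ℝ) ^ 4 := by
    calc (y : ℝ) = (y : ℝ) ^ 1 := (pow_one _).symm
      _ ≤ _ := pow_le_pow_right₀ hyR (by norm_num)
  have h9 : (1 : ℝ) ≤ (y : ℝ) ^ 4 := hyR.trans h8
  rw [hXR] at h5 h4
  rw [hXR] at h6
  rw [hXR] at h7
  nlinarith

/-- solving the inequality for the period -/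
lemma solve_period {n s ω : ℕ} (hω : 2 ^ ω ≤ n)
    (h : ∀ y, s + ω < y ^ 3 → n ≤ (32 * y ^ 4 + 1) ^ 2) :
    n ≤ 1089 * 1728 ^ 3 * (s + 1) ^ 3 := by
  have hex : ∃ y, s + ω < y ^ 3 := ⟨s + ω + 1, by
    calc s + ω < s + ω + 1 := Nat.lt_succ_self _
      _ ≤ (s + ω + 1) ^ 3 := Nat.le_self_pow (by norm_num) _⟩
  classical
  obtain ⟨y, hy, hmin⟩ : ∃ y, s + ω < y ^ 3 ∧ ∀ k, k < y → ¬ (s + ω < k ^ 3) :=
    ⟨Nat.find hex, Nat.find_spec hex, fun k hk => Nat.find_min hex hk⟩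
  have hy0 : y ≠ 0 := by
    rintro rfl
    simp at hy
  obtain ⟨x, rfl⟩ := Nat.exists_eq_succ_of_ne_zero hy0
  have hx := hmin x (by omega)
  push Not at hx
  have hn := h _ hy
  rw [Nat.succ_eq_add_one] at hn
  have hn2 : n ≤ 1089 * (x + 1) ^ 8 := by
    refine hn.trans ?_
    have h1 : 32 * (x + 1) ^ 4 + 1 ≤ 33 * (x + 1) ^ 4 := by
      have : 1 ≤ (x + 1) ^ 4 := Nat.one_le_pow _ _ (by omega)
      omega
    calc _ ≤ (33 * (x + 1) ^ 4) ^ 2 := Nat.pow_le_pow_left h1 2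
      _ = _ := by ring
  have hω2 : ω ≤ 11 + 8 * (x + 1) := by
    have h1 : 2 ^ ω ≤ 2 ^ (11 + 8 * (x + 1)) := by
      calc 2 ^ ω ≤ n := hω
        _ ≤ 1089 * (x + 1) ^ 8 := hn2
        _ ≤ 2 ^ 11 * (2 ^ (x + 1)) ^ 8 :=
            Nat.mul_le_mul (by norm_num) (Nat.pow_le_pow_left Nat.lt_two_pow_self.le 8)
        _ = _ := by rw [← pow_mul, ← pow_add, mul_comm (x + 1) 8]
    exact (Nat.pow_le_pow_iff_right (by norm_num)).1 h1
  have h3 : x ^ 3 ≤ s + 19 + 8 * x := by omega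
  have h4 : (x + 1) ^ 3 ≤ 1728 * (s + 1) := by
    rcases lt_or_ge x 11 with h5 | h5
    · calc (x + 1) ^ 3 ≤ 12 ^ 3 := Nat.pow_le_pow_left (by omega) 3
        _ ≤ 1728 * (s + 1) := by omega
    · have h6 : 121 * x ≤ x ^ 3 := by
        calc 121 * x = 11 * 11 * x := by ring
          _ ≤ x * x * x := by gcongr
          _ = x ^ 3 := by ring
      have h7 : (x + 1) ^ 3 ≤ 8 * x ^ 3 := by
        calc (x + 1) ^ 3 ≤ (2 * x) ^ 3 := Nat.pow_le_pow_left (by omega) 3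
          _ = 8 * x ^ 3 := by ring
      omega
  calc n ≤ 1089 * (x + 1) ^ 8 := hn2
    _ ≤ 1089 * (x + 1) ^ 9 := Nat.mul_le_mul_left _ (Nat.pow_le_pow_right (by omega) (by norm_num))
    _ = 1089 * ((x + 1) ^ 3) ^ 3 := by ring
    _ ≤ 1089 * (1728 * (s + 1)) ^ 3 := Nat.mul_le_mul_left _ (Nat.pow_le_pow_left h4 3)
    _ = _ := by ring

/-- the number of prime factors -/
lemma two_pow_card_primeFactors {n : ℕ} (hn : 0 < n) : 2 ^ n.primeFactors.card ≤ n := by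
  calc 2 ^ n.primeFactors.card ≤ ∏ p ∈ n.primeFactors, p :=
        pow_card_le_prod _ _ _ fun p hp => (Nat.prime_of_mem_primeFactors hp).two_le
    _ ≤ n := Nat.le_of_dvd hn (Nat.prod_primeFactors_dvd n)

end Pool.Agent.T6.H83.FO
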