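import Pool.Agent.T6.H83.FO.Per3
import Pool.Agent.T6.H83.FO.Small
import Pool.Agent.TH856.PG.Maps

set_option autoImplicit false

/-!
# Finite orbits of rational maps
-/

namespace Pool.Agent.T6.H83.FO

open Finset MvPolynomial
open Pool.Agent.TH856.PG (Pr qav fX_iter homMap)
open Pool.Agent.H892.PGK (PotGood PP fX local_data)
open Pool.Agent.H892.PGR (nm nm_pos nm_smul Phi phi_smul)

lemma scale_unit {L : Type*} [Field L] (w : AbsoluteValue L ℝ) {u : Fin 2 → L} (hu : u ≠ 0) :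
    ∃ c : L, c ≠ 0 ∧ nm w (c • u) = 1 := by
  have h := nm_pos w hu
  rcases le_total (w (u 0)) (w (u 1)) with h1 | h1
  · have h2 : nm w u = w (u 1) := max_eq_right h1
    have h3 : u 1 ≠ 0 := by
      intro h0; rw [h2, h0, map_zero] at h; exact lt_irrefl _ h
    refine ⟨(u 1)⁻¹, inv_ne_zero h3, ?_⟩
    rw [nm_smul, h2, map_inv₀]
    exact inv_mul_cancel₀ (w.ne_zero h3)
  · have h2 : nm w u = w (u 0) := max_eq_left h1
    have h3 : u 0 ≠ 0 := by
      intro h0; rw [h2, h0, map_zero] at h; exact lt_irrefl _ h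
    refine ⟨(u 0)⁻¹, inv_ne_zero h3, ?_⟩
    rw [nm_smul, h2, map_inv₀]
    exact inv_mul_cancel₀ (w.ne_zero h3)

/-- a map with potentially good reduction at one prime has no rational base points -/
lemma phi_ne_of_potGood {F G : MvPolynomial (Fin 2) ℚ} {d : ℕ} {a : AbsoluteValue ℚ ℝ}
    (hp : PotGood a F G d) (v : Fin 2 → ℚ) (hv : v ≠ 0) : Phi F G v ≠ 0 := by
  obtain ⟨L, i1, i2, w, A, c, F₁, G₁, hna, hw, hA, hc, hF₁, hG₁, hFi, hGi, hR, hconj⟩ := hp
  intro h0
  set u : Fin 2 → L := fun i => algebraMap ℚ L (v i) with hu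
  have hu0 : u ≠ 0 := by
    intro h1
    apply hv
    ext i
    have : algebraMap ℚ L (v i) = 0 := congrFun h1 i
    exact (map_eq_zero _).mp this
  have hAu : A.mulVec u ≠ 0 := fun h1 => hu0 (Matrix.eq_zero_of_mulVec_eq_zero hA h1)
  have h1 : Phi (F.map (algebraMap ℚ L)) (G.map (algebraMap ℚ L)) u = 0 := by
    have hev : ∀ H : MvPolynomial (Fin 2) ℚ,
        algebraMap ℚ L (eval v H) = eval u (H.map (algebraMap ℚ L)) := by
      intro H
      rw [eval_map]
      exact eval₂_comp (algebraMap ℚ L) v H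
    have e0 : eval v F = 0 := congrFun h0 0
    have e1 : eval v G = 0 := congrFun h0 1
    ext i
    fin_cases i
    · change eval u (F.map (algebraMap ℚ L)) = 0
      rw [← hev, e0, map_zero]
    · change eval u (G.map (algebraMap ℚ L)) = 0
      rw [← hev, e1, map_zero]
  have h2 := hconj u
  rw [h1, Matrix.mulVec_zero] at h2
  have h3 : Phi F₁ G₁ (A.mulVec u) = 0 := by
    rcases smul_eq_zero.1 h2.symm with h4 | h4
    · exact absurd h4 hc
    · exact h4
  obtain ⟨k, hk, hk1⟩ := scale_unit w hAu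
  have h4 := hR _ hk1
  rw [phi_smul hF₁ hG₁, h3, smul_zero] at h4
  have h5 : nm w (0 : Fin 2 → L) = 0 := by
    unfold nm
    simp
  rw [h5] at h4
  exact zero_ne_one h4

/-- the constant -/
def CC : ℕ := 1089 * 1728 ^ 3 * 20066

theorem main {T : Finset ℕ} {F G : MvPolynomial (Fin 2) ℚ} {d : ℕ} (hF : F.IsHomogeneous d)
    (hG : G.IsHomogeneous d)
    (hp : ∀ (p : ℕ) [Fact p.Prime], p ∉ T → PotGood (Rat.AbsoluteValue.padic p) F G d)
    {v : Fin 2 → ℚ} (hv : v ≠ 0)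
    (hpre : ∃ m n : ℕ, m < n ∧ ∃ c : ℚ, (homMap F G)^[n] v = c • (homMap F G)^[m] v) :
    ∃ m n : ℕ, m < n ∧ n ≤ CC * (T.card + 1) ^ 7 ∧ n ≤ m + CC * (T.card + 1) ^ 3 ∧
      ∃ c : ℚ, c ≠ 0 ∧ (homMap F G)^[n] v = c • (homMap F G)^[m] v := by
  classical
  have hPhi : homMap F G = Phi F G := rfl
  rw [hPhi] at hpre ⊢
  -- a small good prime
  obtain ⟨p0, hp0, hp0T, hp0s⟩ := small_prime T (y := T.card + 1) (by
    calc T.card < T.card + 1 := Nat.lt_succ_self _
      _ ≤ (T.card + 1) ^ 3 := Nat.le_self_pow (by norm_num) _)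
  have hp' : ∀ p : Pr, p.1 ∉ T → PotGood (qav p) F G d := fun p h => @hp p.1 ⟨p.2⟩ h
  have h0 : ∀ v : Fin 2 → ℚ, v ≠ 0 → Phi F G v ≠ 0 :=
    phi_ne_of_potGood (hp' ⟨p0, hp0⟩ hp0T)
  set f := fX F G h0 with hf
  set x : PP ℚ := Projectivization.mk ℚ v hv with hx
  -- the orbit is finite
  obtain ⟨i, j, hij, hfij⟩ : ∃ i j : ℕ, i < j ∧ f^[i] x = f^[j] x := by
    obtain ⟨m, n, hmn, c, h⟩ := hpre
    obtain ⟨h1, h2⟩ := fX_iter hF hG h0 v hv n
    obtain ⟨h3, h4⟩ := fX_iter hF hG h0 v hv m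
    refine ⟨m, n, hmn, ?_⟩
    rw [hf, hx, h2, h4, eq_comm, Projectivization.mk_eq_mk_iff']
    exact ⟨c, h.symm⟩
  set y := f^[i] x with hy
  have hper : Function.IsPeriodicPt f (j - i) y := by
    unfold Function.IsPeriodicPt Function.IsFixedPt
    rw [hy, ← Function.iterate_add_apply, show j - i + i = j by omega, ← hfij]
  obtain ⟨n, hn⟩ : ∃ n, Function.minimalPeriod f y = n := ⟨_, rfl⟩
  have hn0 : 0 < n := by
    rw [← hn]
    exact hper.minimalPeriod_pos (by omega)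
  -- the period
  have hnb : n ≤ 1089 * 1728 ^ 3 * (T.card + 1) ^ 3 := by
    apply solve_period (ω := n.primeFactors.card) (two_pow_card_primeFactors hn0)
    intro y' hy'
    obtain ⟨p, hpp, hpT, hps⟩ := small_prime (T ∪ n.primeFactors) (y := y')
      (lt_of_le_of_lt (card_union_le _ _) hy')
    rw [mem_union] at hpT
    push Not at hpT
    have hpn : ¬ p ∣ n := fun h => hpT.2 (Nat.mem_primeFactors.2 ⟨hpp, h, hn0.ne'⟩)
    have h1 := period_le h0 ⟨p, hpp⟩ (hp' ⟨p, hpp⟩ hpT.1) (x := y) hn hn0 hpn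
    refine h1.trans (Nat.pow_le_pow_left ?_ 2)
    show p + 1 ≤ _
    omega
  -- the tail
  set g := f^[n] with hg
  set z := g^[i] x with hz
  have hgy : ∀ k, f^[n * k] y = y := by
    intro k
    have h1 : Function.IsPeriodicPt f n y := by
      rw [← hn]; exact Function.isPeriodicPt_minimalPeriod f y
    exact (h1.mul_const k)
  have hzy : z = f^[n * i - i] y := by
    have hle : i ≤ n * i := Nat.le_mul_of_pos_left i hn0
    rw [hz, hg, ← Function.iterate_mul, hy, ← Function.iterate_add_apply,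
      show n * i - i + i = n * i by omega]
  have hgz : g z = z := by
    have h1 := hgy 1
    rw [mul_one] at h1
    rw [hzy, hg, ← Function.iterate_add_apply, add_comm, Function.iterate_add_apply, h1]
  have hex : ∃ t, g^[t] x = z := ⟨i, rfl⟩
  obtain ⟨t, ht, htmin⟩ : ∃ t, g^[t] x = z ∧ ∀ k, k < t → g^[k] x ≠ z :=
    ⟨Nat.find hex, Nat.find_spec hex, fun k hk => Nat.find_min hex hk⟩
  have hne : ∀ p, p ∉ T.subtype Nat.Prime → NEat (qav p) g := by
    intro p hpT
    have h1 : p.1 ∉ T := fun h2 => hpT (mem_subtype.2 h2)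
    have h2 : NEat (qav p) f := local_data h0 (hp' p h1)
    exact h2.iter n
  have hcard : (T.subtype Nat.Prime).card ≤ T.card := by
    rw [card_subtype]
    exact card_filter_le _ _
  have htb := tail_le hne (p0 := ⟨p0, hp0⟩) (fun h => hp0T (mem_subtype.1 h)) hgz ht htmin
  have htb2 : t + 1 ≤ 20066 * (T.card + 1) ^ 4 := by
    have h1 : ((T.subtype Nat.Prime).card + 1) ^ 4 ≤ (T.card + 1) ^ 4 :=
      Nat.pow_le_pow_left (by omega) 4
    have h2 : 1 ≤ (T.card + 1) ^ 4 := Nat.one_le_pow _ _ (by omega)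
    have h3 : (⟨p0, hp0⟩ : Pr).1 = p0 := rfl
    rw [h3] at htb
    omega
  -- conclusion
  have hfin : f^[n * t + n] x = f^[n * t] x := by
    have h1 : f^[n * t] x = z := by
      rw [Function.iterate_mul]; exact ht
    rw [add_comm, Function.iterate_add_apply, h1]
    exact hgz
  refine ⟨n * t, n * t + n, by omega, ?_, ?_, ?_⟩
  · calc n * t + n = n * (t + 1) := by ring
      _ ≤ (1089 * 1728 ^ 3 * (T.card + 1) ^ 3) * (20066 * (T.card + 1) ^ 4) :=
          Nat.mul_le_mul hnb htb2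
      _ = CC * (T.card + 1) ^ 7 := by unfold CC; ring
  · have h1 : 1089 * 1728 ^ 3 * (T.card + 1) ^ 3 ≤ CC * (T.card + 1) ^ 3 :=
      Nat.mul_le_mul_right _ (by unfold CC; norm_num)
    omega
  · obtain ⟨h1, h2⟩ := fX_iter hF hG h0 v hv (n * t + n)
    obtain ⟨h3, h4⟩ := fX_iter hF hG h0 v hv (n * t)
    rw [hf, hx, h2, h4, Projectivization.mk_eq_mk_iff'] at hfin
    obtain ⟨a, ha⟩ := hfin
    refine ⟨a, ?_, ha.symm⟩
    rintro rfl
    rw [zero_smul] at ha
    exact h1 ha.symm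

end Pool.Agent.T6.H83.FO
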