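import Mathlib
import Pool.Agent.H892.PGR.Loc

set_option autoImplicit false

/-!
# Maps which are almost linear on a residue class, and their cycles
-/

namespace Pool.Agent.T6.H83.FO

open Finset Polynomial
open Pool.Agent.H892.PGR (sum_le pow_sub_le)

variable {L : Type*} [Field L] (w : AbsoluteValue L ℝ)
  (hna : ∀ x y : L, w (x + y) ≤ max (w x) (w y))

include hna

lemma na_sub (x y : L) : w (x - y) ≤ max (w x) (w y) := by
  rw [sub_eq_add_neg]
  refine (hna _ _).trans ?_
  rw [AbsoluteValue.map_neg]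

lemma mono_lin {x y z : L} (hx : w x ≤ 1) (hy : w y ≤ 1) (hz : w z ≤ 1) {ε : ℝ}
    (h1 : w (x - z) ≤ ε) (h2 : w (y - z) ≤ ε) (k : ℕ) :
    w (x ^ k - y ^ k - (k : L) * z ^ (k - 1) * (x - y)) ≤ ε * w (x - y) := by
  have hε : 0 ≤ ε := (w.nonneg _).trans h1
  have e1 : x ^ k - y ^ k - (k : L) * z ^ (k - 1) * (x - y) =
      (∑ i ∈ range k, (x ^ i * y ^ (k - 1 - i) - z ^ i * z ^ (k - 1 - i))) * (x - y) := by
    rw [sum_sub_distrib, sub_mul, (Commute.all x y).geom_sum₂_mul]
    congr 2
    rw [sum_congr rfl (g := fun _ => z ^ (k - 1)) (fun i hi => by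
      rw [← pow_add]
      congr 1
      have := mem_range.1 hi
      omega), sum_const, card_range, nsmul_eq_mul]
  rw [e1, map_mul]
  refine mul_le_mul_of_nonneg_right ?_ (w.nonneg _)
  refine sum_le w hna _ _ hε fun i _ => ?_
  have e2 : x ^ i * y ^ (k - 1 - i) - z ^ i * z ^ (k - 1 - i) =
      (x ^ i - z ^ i) * y ^ (k - 1 - i) + z ^ i * (y ^ (k - 1 - i) - z ^ (k - 1 - i)) := by ring
  rw [e2]
  refine (hna _ _).trans (max_le ?_ ?_)
  · rw [map_mul, map_pow]
    have h3 := (pow_sub_le w hna hx hz i).trans h1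
    have h4 : w y ^ (k - 1 - i) ≤ 1 := pow_le_one₀ (w.nonneg _) hy
    calc _ ≤ ε * 1 := mul_le_mul h3 h4 (by positivity) hε
      _ = ε := mul_one _
  · rw [map_mul, map_pow]
    have h3 := (pow_sub_le w hna hy hz (k - 1 - i)).trans h2
    have h4 : w z ^ i ≤ 1 := pow_le_one₀ (w.nonneg _) hz
    calc _ ≤ 1 * ε := mul_le_mul h4 h3 (w.nonneg _) zero_le_one
      _ = ε := one_mul _

lemma nat_le (n : ℕ) : w (n : L) ≤ 1 := by
  induction n with
  | zero => simp
  | succ n ih =>
    push_cast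
    refine (hna _ _).trans (max_le ih ?_)
    rw [map_one]

lemma eval_le {P : L[X]} (hP : ∀ s, w (P.coeff s) ≤ 1) {x : L} (hx : w x ≤ 1) :
    w (P.eval x) ≤ 1 := by
  rw [eval_eq_sum_range]
  refine sum_le w hna _ _ zero_le_one fun i _ => ?_
  rw [map_mul, map_pow]
  exact mul_le_one₀ (hP i) (by positivity) (pow_le_one₀ (w.nonneg _) hx)

lemma eval_sub_le {P : L[X]} (hP : ∀ s, w (P.coeff s) ≤ 1) {x y : L} (hx : w x ≤ 1)
    (hy : w y ≤ 1) : w (P.eval x - P.eval y) ≤ w (x - y) := by
  rw [eval_eq_sum_range, eval_eq_sum_range, ← sum_sub_distrib]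
  refine sum_le w hna _ _ (w.nonneg _) fun i _ => ?_
  rw [← mul_sub, map_mul]
  have h1 := pow_sub_le w hna hx hy i
  calc _ ≤ 1 * w (x - y) := mul_le_mul (hP i) h1 (w.nonneg _) zero_le_one
    _ = _ := one_mul _

lemma deriv_le {P : L[X]} (hP : ∀ s, w (P.coeff s) ≤ 1) {x : L} (hx : w x ≤ 1) :
    w (P.derivative.eval x) ≤ 1 := by
  refine eval_le w hna (fun s => ?_) hx
  rw [coeff_derivative, map_mul]
  refine mul_le_one₀ (hP _) (w.nonneg _) ?_
  have := nat_le w hna (s + 1)
  push_cast at this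
  exact this

lemma eval_lin {P : L[X]} (hP : ∀ s, w (P.coeff s) ≤ 1) {x y z : L} (hx : w x ≤ 1)
    (hy : w y ≤ 1) (hz : w z ≤ 1) {ε : ℝ} (h1 : w (x - z) ≤ ε) (h2 : w (y - z) ≤ ε) :
    w (P.eval x - P.eval y - P.derivative.eval z * (x - y)) ≤ ε * w (x - y) := by
  have hε : 0 ≤ ε := (w.nonneg _).trans h1
  have e1 : P.eval x - P.eval y - P.derivative.eval z * (x - y) =
      ∑ i ∈ range (P.natDegree + 1),
        P.coeff i * (x ^ i - y ^ i - (i : L) * z ^ (i - 1) * (x - y)) := by
    rw [eval_eq_sum_range, eval_eq_sum_range, derivative_eval,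
      sum_over_range _ (fun n => by simp), sum_mul, ← sum_sub_distrib, ← sum_sub_distrib]
    refine sum_congr rfl fun i _ => ?_
    ring
  rw [e1]
  refine sum_le w hna _ _ (by have := w.nonneg (x - y); positivity) fun i _ => ?_
  rw [map_mul]
  have h3 := mono_lin w hna hx hy hz h1 h2 i
  calc _ ≤ 1 * (ε * w (x - y)) := mul_le_mul (hP i) h3 (w.nonneg _) zero_le_one
    _ = _ := one_mul _

/-- a rational function with good reduction is almost linear on a residue class -/
theorem lin {f g : L[X]} (hf : ∀ s, w (f.coeff s) ≤ 1) (hg : ∀ s, w (g.coeff s) ≤ 1)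
    {z : ℕ → L} (hz : ∀ i, w (z i) ≤ 1) (hz0 : ∀ i, w (z i - z 0) < 1)
    (hfg : ∀ i, f.eval (z i) = z (i + 1) * g.eval (z i)) (hg1 : ∀ i, w (g.eval (z i)) = 1) :
    ∃ lam : L, ∀ i j, z i ≠ z j →
      w (z (i + 1) - z (j + 1) - lam * (z i - z j)) < w (z i - z j) := by
  set a := g.eval (z 0) with ha
  have ha1 : w a = 1 := hg1 0
  have ha0 : a ≠ 0 := by
    intro h
    rw [h, map_zero] at ha1
    exact zero_ne_one ha1
  set W := f.derivative.eval (z 0) * a - f.eval (z 0) * g.derivative.eval (z 0) with hW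
  refine ⟨W / a ^ 2, fun i j hij => ?_⟩
  set Δ := z i - z j with hΔ
  have hΔ0 : 0 < w Δ := w.pos (sub_ne_zero.2 hij)
  obtain ⟨ε, hε1, hε2, hε3, hε4⟩ : ∃ ε : ℝ, w (z i - z 0) ≤ ε ∧ w (z j - z 0) ≤ ε ∧ ε < 1 ∧ 0 ≤ ε :=
    ⟨max (w (z i - z 0)) (w (z j - z 0)), le_max_left _ _, le_max_right _ _,
      max_lt (hz0 i) (hz0 j), le_max_of_le_left (w.nonneg _)⟩
  -- `z (i + 1) - z (j + 1)` is small
  have e0 : (z (i + 1) - z (j + 1)) * (g.eval (z i) * g.eval (z j)) =
      (f.eval (z i) - f.eval (z j)) * g.eval (z j) -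
        f.eval (z j) * (g.eval (z i) - g.eval (z j)) := by
    rw [hfg i, hfg j]; ring
  have hb : w (z (i + 1) - z (j + 1)) ≤ w Δ := by
    have h1 : w (z (i + 1) - z (j + 1)) = w ((z (i + 1) - z (j + 1)) *
        (g.eval (z i) * g.eval (z j))) := by
      rw [map_mul, map_mul, hg1, hg1, one_mul, mul_one]
    rw [h1, e0]
    refine (na_sub w hna _ _).trans (max_le ?_ ?_)
    · rw [map_mul, hg1, mul_one]
      exact eval_sub_le w hna hf (hz i) (hz j)
    · rw [map_mul]
      calc _ ≤ 1 * w Δ := mul_le_mul (eval_le w hna hf (hz j))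
            (eval_sub_le w hna hg (hz i) (hz j)) (w.nonneg _) zero_le_one
        _ = _ := one_mul _
  have e1 : (z (i + 1) - z (j + 1) - W / a ^ 2 * Δ) * a ^ 2 =
      (z (i + 1) - z (j + 1)) * ((a - g.eval (z i)) * a + g.eval (z i) * (a - g.eval (z j))) +
      ((f.eval (z i) - f.eval (z j) - f.derivative.eval (z 0) * Δ) * g.eval (z j) +
      (f.derivative.eval (z 0) * Δ * (g.eval (z j) - a) -
      (f.eval (z j) * (g.eval (z i) - g.eval (z j) - g.derivative.eval (z 0) * Δ) +
      (f.eval (z j) - f.eval (z 0)) * g.derivative.eval (z 0) * Δ))) := by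
    have e2 : (z (i + 1) - z (j + 1) - W / a ^ 2 * Δ) * a ^ 2 =
        (z (i + 1) - z (j + 1)) * a ^ 2 - W * Δ := by
      field_simp
    rw [e2, hW]
    linear_combination e0
  have h2 : w (z (i + 1) - z (j + 1) - W / a ^ 2 * Δ) ≤ ε * w Δ := by
    have h3 : w (z (i + 1) - z (j + 1) - W / a ^ 2 * Δ) =
        w ((z (i + 1) - z (j + 1) - W / a ^ 2 * Δ) * a ^ 2) := by
      rw [map_mul, map_pow, ha1, one_pow, mul_one]
    have gi : w (g.eval (z i) - a) ≤ ε := (eval_sub_le w hna hg (hz i) (hz 0)).trans hε1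
    have gj : w (g.eval (z j) - a) ≤ ε := (eval_sub_le w hna hg (hz j) (hz 0)).trans hε2
    have gi' : w (a - g.eval (z i)) ≤ ε := by rwa [← neg_sub, AbsoluteValue.map_neg] at gi
    have gj' : w (a - g.eval (z j)) ≤ ε := by rwa [← neg_sub, AbsoluteValue.map_neg] at gj
    have fj : w (f.eval (z j) - f.eval (z 0)) ≤ ε :=
      (eval_sub_le w hna hf (hz j) (hz 0)).trans hε2
    rw [h3, e1]
    refine (hna _ _).trans (max_le ?_ ((hna _ _).trans (max_le ?_
      ((na_sub w hna _ _).trans (max_le ?_ ((hna _ _).trans (max_le ?_ ?_)))))))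
    · rw [map_mul, mul_comm]
      refine mul_le_mul ?_ hb (w.nonneg _) hε4
      refine (hna _ _).trans (max_le ?_ ?_)
      · rw [map_mul, ha1, mul_one]; exact gi'
      · rw [map_mul, hg1, one_mul]; exact gj'
    · rw [map_mul, hg1, mul_one]
      exact eval_lin w hna hf (hz i) (hz j) (hz 0) hε1 hε2
    · rw [map_mul, map_mul]
      have h4 := deriv_le w hna hf (hz 0)
      calc _ ≤ 1 * w Δ * ε := by
            refine mul_le_mul (mul_le_mul_of_nonneg_right h4 (w.nonneg _)) gj (w.nonneg _) ?_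
            positivity
        _ = ε * w Δ := by ring
    · rw [map_mul]
      calc _ ≤ 1 * (ε * w Δ) := mul_le_mul (eval_le w hna hf (hz j))
            (eval_lin w hna hg (hz i) (hz j) (hz 0) hε1 hε2) (w.nonneg _) zero_le_one
        _ = _ := one_mul _
    · rw [map_mul, map_mul]
      have h4 := deriv_le w hna hg (hz 0)
      calc _ ≤ ε * 1 * w Δ := by
            refine mul_le_mul_of_nonneg_right ?_ (w.nonneg _)
            exact mul_le_mul fj h4 (w.nonneg _) hε4
        _ = ε * w Δ := by ring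
  calc _ ≤ ε * w Δ := h2
    _ < 1 * w Δ := mul_lt_mul_of_pos_right hε3 hΔ0
    _ = w Δ := one_mul _

/-- the points of a cycle of an almost linear map are equidistant if the length of the cycle is
a unit -/
theorem cyc_equi {z : ℕ → L} {N : ℕ} (hN : 2 ≤ N) (hper : ∀ i, z (i + N) = z i)
    (hw : w (N : L) = 1) (hiso : ∀ i j, w (z (i + 1) - z (j + 1)) = w (z i - z j))
    (hne : ∀ k, 0 < k → k < N → z k ≠ z 0) {lam : L}
    (hlin : ∀ i j, z i ≠ z j → w (z (i + 1) - z (j + 1) - lam * (z i - z j)) < w (z i - z j)) :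
    ∀ k, 0 < k → k < N → w (z k - z 0) = w (z 1 - z 0) := by
  -- isometry
  have hiso' : ∀ i j l, w (z (i + l) - z (j + l)) = w (z i - z j) := by
    intro i j l
    induction l with
    | zero => rfl
    | succ l ih => rw [← add_assoc, ← add_assoc, hiso, ih]
  have hpos : ∀ k, 0 < k → k < N → 0 < w (z k - z 0) := fun k h1 h2 =>
    w.pos (sub_ne_zero.2 (hne k h1 h2))
  have hstep : ∀ k, 0 < k → k < N → ∀ i,
      w (z (i + 1 + k) - z (i + 1) - lam * (z (i + k) - z i)) < w (z k - z 0) := by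
    intro k h1 h2 i
    have h3 : w (z (i + k) - z i) = w (z k - z 0) := by
      have := hiso' k 0 i
      rwa [zero_add, add_comm k i] at this
    have h4 : z (i + k) ≠ z i := by
      intro h
      rw [h, sub_self, map_zero] at h3
      exact (hpos k h1 h2).ne h3
    have h5 := hlin (i + k) i h4
    rw [h3] at h5
    rw [show i + 1 + k = i + k + 1 by ring]
    exact h5
  have hlam : w lam = 1 := by
    have h1 := hstep 1 (by omega) (by omega) 0
    rw [zero_add] at h1
    have h2 : w (z (1 + 1) - z 1) = w (z 1 - z 0) := hiso 1 0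
    have h0 := hpos 1 (by omega) (by omega)
    have h3 : w (lam * (z 1 - z 0)) = w (z 1 - z 0) := by
      apply le_antisymm
      · have h4 : lam * (z 1 - z 0) = (z (1 + 1) - z 1) -
          (z (1 + 1) - z 1 - lam * (z 1 - z 0)) := by ring
        rw [h4]
        refine (na_sub w hna _ _).trans (max_le h2.le h1.le)
      · by_contra hcon
        push Not at hcon
        have h4 : z (1 + 1) - z 1 = (z (1 + 1) - z 1 - lam * (z 1 - z 0)) +
          lam * (z 1 - z 0) := by ring
        have h5 := hna (z (1 + 1) - z 1 - lam * (z 1 - z 0)) (lam * (z 1 - z 0))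
        rw [← h4, h2] at h5
        exact absurd h5 (not_le.2 (max_lt h1 hcon))
    rw [map_mul] at h3
    have h4 : w lam * w (z 1 - z 0) = 1 * w (z 1 - z 0) := by rw [h3, one_mul]
    exact mul_right_cancel₀ h0.ne' h4
  have happ : ∀ k, 0 < k → k < N → ∀ i,
      w (z (i + k) - z i - lam ^ i * (z k - z 0)) < w (z k - z 0) := by
    intro k h1 h2 i
    induction i with
    | zero =>
      rw [zero_add, pow_zero, one_mul, sub_self, map_zero]
      exact hpos k h1 h2
    | succ i ih =>
      have h3 : z (i + 1 + k) - z (i + 1) - lam ^ (i + 1) * (z k - z 0) =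
          (z (i + 1 + k) - z (i + 1) - lam * (z (i + k) - z i)) +
            lam * (z (i + k) - z i - lam ^ i * (z k - z 0)) := by ring
      rw [h3]
      refine lt_of_le_of_lt (hna _ _) (max_lt (hstep k h1 h2 i) ?_)
      rw [map_mul, hlam, one_mul]
      exact ih
  -- sums of small elements
  have hsum : ∀ (s : ℕ) (u : ℕ → L) (ρ : ℝ), 0 < ρ → (∀ i < s, w (u i) < ρ) →
      w (∑ i ∈ range s, u i) < ρ := by
    intro s u ρ hρ
    induction s with
    | zero => intro _; simpa using hρ
    | succ s ih =>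
      intro h
      rw [sum_range_succ]
      exact lt_of_le_of_lt (hna _ _) (max_lt (ih fun i hi => h i (by omega)) (h s (by omega)))
  have hunit : ∀ k, 0 < k → k < N → w (lam ^ k - 1) = 1 := by
    intro k h1 h2
    by_contra hcon
    have hle : w (lam ^ k - 1) ≤ 1 := by
      refine (na_sub w hna _ _).trans (max_le ?_ ?_)
      · rw [map_pow, hlam, one_pow]
      · rw [map_one]
    have hlt : w (lam ^ k - 1) < 1 := lt_of_le_of_ne hle hcon
    have hρ := hpos k h1 h2
    have h3 : ∑ i ∈ range N, (z (i * k + k) - z (i * k)) = 0 := by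
      have h4 := sum_range_sub (fun i => z (i * k)) N
      simp only [add_mul, one_mul, zero_mul] at h4
      rw [h4]
      have h5 : ∀ t, z (N * t) = z 0 := by
        intro t
        induction t with
        | zero => rw [mul_zero]
        | succ t ih => rw [mul_add, mul_one, hper, ih]
      rw [h5, sub_self]
    -- each term is near to `z k - z 0`
    have h6 : ∀ i, w (z (i * k + k) - z (i * k) - (z k - z 0)) < w (z k - z 0) := by
      intro i
      have h7 := happ k h1 h2 (i * k)
      have h8 : z (i * k + k) - z (i * k) - (z k - z 0) =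
          (z (i * k + k) - z (i * k) - lam ^ (i * k) * (z k - z 0)) +
            (lam ^ (i * k) - 1) * (z k - z 0) := by ring
      rw [h8]
      refine lt_of_le_of_lt (hna _ _) (max_lt h7 ?_)
      rw [map_mul]
      have h9 : w (lam ^ (i * k) - 1) < 1 := by
        have h10 := pow_sub_le w hna (x := lam ^ k) (y := 1)
          (by rw [map_pow, hlam, one_pow]) (by rw [map_one]) i
        rw [one_pow, ← pow_mul, mul_comm k i] at h10
        exact lt_of_le_of_lt h10 hlt
      calc _ < 1 * w (z k - z 0) := mul_lt_mul_of_pos_right h9 hρ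
        _ = _ := one_mul _
    have h11 := hsum N (fun i => z (i * k + k) - z (i * k) - (z k - z 0)) _ hρ
      (fun i _ => h6 i)
    rw [sum_sub_distrib, h3, sum_const, card_range, nsmul_eq_mul, zero_sub,
      AbsoluteValue.map_neg, map_mul, hw, one_mul] at h11
    exact lt_irrefl _ h11
  intro k h1 h2
  have hρ := hpos 1 (by omega) (by omega)
  have h3 : z k - z 0 = ∑ i ∈ range k, (z (i + 1) - z i) := by
    rw [sum_range_sub]
  have h4 := hsum k (fun i => z (i + 1) - z i - lam ^ i * (z 1 - z 0)) _ hρ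
    (fun i _ => happ 1 (by omega) (by omega) i)
  rw [sum_sub_distrib, ← h3, ← sum_mul] at h4
  -- the geometric sum is a unit
  have h5 : w (∑ i ∈ range k, lam ^ i) = 1 := by
    have h6 : (∑ i ∈ range k, lam ^ i) * (lam - 1) = lam ^ k - 1 := geom_sum_mul lam k
    have h7 : w (∑ i ∈ range k, lam ^ i) ≤ 1 := by
      refine sum_le w hna _ _ zero_le_one fun i _ => ?_
      rw [map_pow, hlam, one_pow]
    have h8 : w (lam - 1) ≤ 1 := by
      refine (na_sub w hna _ _).trans (max_le hlam.le ?_)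
      rw [map_one]
    have h9 : w (∑ i ∈ range k, lam ^ i) * w (lam - 1) = 1 := by
      rw [← map_mul, h6, hunit k h1 h2]
    have h10 := w.nonneg (∑ i ∈ range k, lam ^ i)
    have h11 := w.nonneg (lam - 1)
    nlinarith
  have h6 : w ((∑ i ∈ range k, lam ^ i) * (z 1 - z 0)) = w (z 1 - z 0) := by
    rw [map_mul, h5, one_mul]
  apply le_antisymm
  · have h7 : z k - z 0 = (z k - z 0 - (∑ i ∈ range k, lam ^ i) * (z 1 - z 0)) +
      (∑ i ∈ range k, lam ^ i) * (z 1 - z 0) := by ring
    rw [h7]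
    exact (hna _ _).trans (max_le h4.le h6.le)
  · by_contra hcon
    push Not at hcon
    have h7 : (∑ i ∈ range k, lam ^ i) * (z 1 - z 0) = (z k - z 0) -
      (z k - z 0 - (∑ i ∈ range k, lam ^ i) * (z 1 - z 0)) := by ring
    rw [h7] at h6
    have h8 := na_sub w hna (z k - z 0)
      (z k - z 0 - (∑ i ∈ range k, lam ^ i) * (z 1 - z 0))
    rw [h6] at h8
    exact absurd h8 (not_le.2 (max_lt hcon h4))

end Pool.Agent.T6.H83.FO
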