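import Pool.Agent.T6.H83.FO.Core2
import Pool.Agent.H892.PGK.Glob

set_option autoImplicit false

/-!
# Orbits which end in a fixed point
-/

namespace Pool.Agent.T6.H83.FO

open Finset
open Pool.Agent.TH856.PG (Pr qav)
open Pool.Agent.H892.PGK (PotGood PP fX br_zero_iff local_data)
open Pool.Agent.H892.PGR (br Phi)

/-- `g` does not increase a distance on the projective line given by the absolute value `a` -/
def NEat (a : AbsoluteValue ℚ ℝ) (g : PP ℚ → PP ℚ) : Prop :=
  ∃ N : PP ℚ → ℝ, (∀ x, 0 < N x) ∧
    (∀ x y z : PP ℚ, a (br x.rep z.rep) / (N x * N z) ≤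
      max (a (br x.rep y.rep) / (N x * N y)) (a (br y.rep z.rep) / (N y * N z))) ∧
    (∀ x y : PP ℚ, a (br (g x).rep (g y).rep) / (N (g x) * N (g y)) ≤
      a (br x.rep y.rep) / (N x * N y))

lemma NEat.iter {a : AbsoluteValue ℚ ℝ} {g : PP ℚ → PP ℚ} (h : NEat a g) (n : ℕ) :
    NEat a g^[n] := by
  obtain ⟨N, h1, h2, h3⟩ := h
  refine ⟨N, h1, h2, ?_⟩
  induction n with
  | zero => intro x y; exact le_rfl
  | succ n ih =>
    intro x y
    rw [Function.iterate_succ_apply', Function.iterate_succ_apply']
    exact (h3 _ _).trans (ih x y)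

lemma br_ne {x y : PP ℚ} (h : x ≠ y) : br x.rep y.rep ≠ 0 := by
  intro h0
  have h1 := (br_zero_iff x.rep_nonzero y.rep_nonzero).1 h0
  rw [Projectivization.mk_rep, Projectivization.mk_rep] at h1
  exact h h1

lemma br_comm {K : Type} [Field K] (u v : Fin 2 → K) : br u v = - br v u := by
  unfold br; ring

lemma br_self {K : Type} [Field K] (u : Fin 2 → K) : br u u = 0 := by
  unfold br; ring

lemma tail_dist {a : AbsoluteValue ℚ ℝ} {g : PP ℚ → PP ℚ} {N : PP ℚ → ℝ} (h1 : ∀ x, 0 < N x)
    (h2 : ∀ x y z : PP ℚ, a (br x.rep z.rep) / (N x * N z) ≤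
      max (a (br x.rep y.rep) / (N x * N y)) (a (br y.rep z.rep) / (N y * N z)))
    (h3 : ∀ x y : PP ℚ, a (br (g x).rep (g y).rep) / (N (g x) * N (g y)) ≤
      a (br x.rep y.rep) / (N x * N y)) {x z : PP ℚ} (hz : g z = z) {t : ℕ} (ht : g^[t] x = z)
    {i j : ℕ} (hij : i < j) :
    a (br (g^[i] x).rep (g^[j] x).rep) / (N (g^[i] x) * N (g^[j] x)) =
      a (br (g^[i] x).rep z.rep) / (N (g^[i] x) * N z) ∧
    a (br (g^[j] x).rep z.rep) / (N (g^[j] x) * N z) ≤
      a (br (g^[i] x).rep z.rep) / (N (g^[i] x) * N z) := by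
  set δ : PP ℚ → PP ℚ → ℝ := fun x y => a (br x.rep y.rep) / (N x * N y) with hδ
  have hsymm : ∀ x y, δ x y = δ y x := by
    intro x y
    simp only [hδ]
    rw [br_comm, AbsoluteValue.map_neg, mul_comm (N x)]
  have hself : ∀ x, δ x x = 0 := by
    intro x
    simp only [hδ]
    rw [br_self, map_zero, zero_div]
  have hnn : ∀ x y, 0 ≤ δ x y := by
    intro x y
    exact div_nonneg (a.nonneg _) (mul_pos (h1 x) (h1 y)).le
  have h2' : ∀ x y z, δ x z ≤ max (δ x y) (δ y z) := h2
  have h3' : ∀ k x y, δ (g^[k] x) (g^[k] y) ≤ δ x y := by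
    intro k
    induction k with
    | zero => intro x y; exact le_rfl
    | succ k ih =>
      intro x y
      rw [Function.iterate_succ_apply', Function.iterate_succ_apply']
      exact (h3 _ _).trans (ih x y)
  have hzk : ∀ k, g^[k] z = z := fun k => Function.iterate_fixed hz k
  have hmono : ∀ k y, δ (g^[k] y) z ≤ δ y z := by
    intro k y
    have := h3' k y z
    rwa [hzk] at this
  obtain ⟨k, rfl⟩ := Nat.exists_eq_add_of_lt hij
  have hj : δ (g^[i + k + 1] x) z ≤ δ (g^[i] x) z := by
    have := hmono (k + 1) (g^[i] x)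
    rwa [← Function.iterate_add_apply, show k + 1 + i = i + k + 1 by ring] at this
  refine ⟨le_antisymm ?_ ?_, hj⟩
  · show δ _ _ ≤ δ _ _
    refine (h2' _ z _).trans (max_le le_rfl ?_)
    rw [hsymm]
    exact hj
  · show δ _ _ ≤ δ _ _
    have hl : ∀ l : ℕ, δ (g^[i] x) (g^[i + l * (k + 1)] x) ≤
        δ (g^[i] x) (g^[i + k + 1] x) := by
      intro l
      induction l with
      | zero => rw [zero_mul, add_zero, hself]; exact hnn _ _
      | succ l ih =>
        refine (h2' _ (g^[i + l * (k + 1)] x) _).trans (max_le ih ?_)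
        have := h3' (l * (k + 1)) (g^[i] x) (g^[i + k + 1] x)
        rw [← Function.iterate_add_apply, ← Function.iterate_add_apply] at this
        rw [show i + (l + 1) * (k + 1) = l * (k + 1) + (i + k + 1) by ring,
          show i + l * (k + 1) = l * (k + 1) + i by ring]
        exact this
    have h5 := hl t
    have h6 : g^[i + t * (k + 1)] x = z := by
      rw [show i + t * (k + 1) = (i + t * k) + t by ring, Function.iterate_add_apply, ht, hzk]
    rwa [h6] at h5

/-- the length of an orbit which ends in a fixed point -/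
theorem tail_le {T : Finset Pr} {g : PP ℚ → PP ℚ} (hg : ∀ p, p ∉ T → NEat (qav p) g) {p0 : Pr}
    (hp0 : p0 ∉ T) {x z : PP ℚ} (hz : g z = z) {t : ℕ} (ht : g^[t] x = z)
    (hlt : ∀ i, i < t → g^[i] x ≠ z) : t ≤ 2 * p0.1 + 20000 * (T.card + 1) ^ 4 + 1 := by
  classical
  rcases Nat.eq_zero_or_pos t with h0 | h0
  · omega
  obtain ⟨m, rfl⟩ : ∃ m, t = m + 1 := ⟨t - 1, by omega⟩
  have hzk : ∀ k, g^[k] z = z := fun k => Function.iterate_fixed hz k
  -- the points are different
  have hne : ∀ i j, i < j → i ≤ m → g^[i] x ≠ g^[j] x := by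
    intro i j hij hi h
    have h5 : g^[m + 1 - (j - i)] x = z := by
      rcases le_or_gt (j - i) (m + 1 - i) with h6 | h6
      · have h7 : g^[(m + 1 - j) + i] x = g^[(m + 1 - j) + j] x := by
          rw [Function.iterate_add_apply, h, ← Function.iterate_add_apply]
        rw [show m + 1 - j + i = m + 1 - (j - i) by omega, show m + 1 - j + j = m + 1 by omega,
          ht] at h7
        exact h7
      · exfalso
        apply hlt i (by omega)
        rw [h, show j = (j - (m + 1)) + (m + 1) by omega, Function.iterate_add_apply, ht, hzk]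
    exact hlt _ (by omega) h5
  let P : Fin m → PP ℚ := fun j => g^[j.1 + 1] x
  have hPz : ∀ j, P j ≠ z := fun j => hlt _ (by omega)
  have hPx : ∀ j, P j ≠ x := fun j => (hne 0 _ (by omega) (by omega)).symm
  have hxz : x ≠ z := hlt 0 (by omega)
  have hPP : ∀ j k, j < k → P j ≠ P k := fun j k hjk => hne _ _ (by
    have : j.1 < k.1 := hjk
    omega) (by omega)
  let y : Fin m → ℚ := fun j => br (P j).rep z.rep / br (P j).rep x.rep
  have hsub : ∀ j k, y j - y k = br (P j).rep (P k).rep * br z.rep x.rep /
      (br (P j).rep x.rep * br (P k).rep x.rep) := by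
    intro j k
    simp only [y]
    have e1 := br_ne (hPx j)
    have e2 := br_ne (hPx k)
    rw [div_sub_div _ _ e1 e2]
    congr 1
    unfold br
    ring
  have hinj : Function.Injective y := by
    have key : ∀ j k, j < k → y j ≠ y k := by
      intro j k hjk h
      have h5 := hsub j k
      rw [h, sub_self] at h5
      have e1 := br_ne (hPx j)
      have e2 := br_ne (hPx k)
      have e3 := br_ne (hPP j k hjk)
      have e4 := br_ne hxz.symm
      have : br (P j).rep (P k).rep * br z.rep x.rep /
        (br (P j).rep x.rep * br (P k).rep x.rep) ≠ 0 :=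
        div_ne_zero (mul_ne_zero e3 e4) (mul_ne_zero e1 e2)
      exact this h5.symm
    intro j k h
    rcases lt_trichotomy j k with h5 | h5 | h5
    · exact absurd h (key j k h5)
    · exact h5
    · exact absurd h.symm (key k j h5)
  have hmain := core (m := m) (T := T) (p0 := p0) (x := y) hp0
    (fun j => div_ne_zero (br_ne (hPz j)) (br_ne (hPx j))) hinj (by
      intro p hp j k hjk
      obtain ⟨N, n1, n2, n3⟩ := hg p hp
      have hjk' : j.1 < k.1 := hjk
      have d1 := tail_dist n1 n2 n3 hz ht (i := j.1 + 1) (j := k.1 + 1) (by omega)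
      have d2 := tail_dist n1 n2 n3 hz ht (i := 0) (j := j.1 + 1) (by omega)
      have d3 := tail_dist n1 n2 n3 hz ht (i := 0) (j := k.1 + 1) (by omega)
      change (qav p) (br (P j).rep (P k).rep) / (N (P j) * N (P k)) =
        qav p (br (P j).rep z.rep) / (N (P j) * N z) ∧
        qav p (br (P k).rep z.rep) / (N (P k) * N z) ≤
        qav p (br (P j).rep z.rep) / (N (P j) * N z) at d1
      change (qav p) (br x.rep (P j).rep) / (N x * N (P j)) =
        qav p (br x.rep z.rep) / (N x * N z) ∧ _ at d2
      change (qav p) (br x.rep (P k).rep) / (N x * N (P k)) =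
        qav p (br x.rep z.rep) / (N x * N z) ∧ _ at d3
      have a1 := n1 (P j)
      have a2 := n1 (P k)
      have a3 := n1 x
      have a4 := n1 z
      have b1 := qav_pos p (br_ne (hPz j))
      have b2 := qav_pos p (br_ne (hPz k))
      have b3 := qav_pos p (br_ne (hPx j))
      have b4 := qav_pos p (br_ne (hPx k))
      have b5 := qav_pos p (br_ne (hPP j k hjk))
      have b6 := qav_pos p (br_ne hxz)
      have e0 := d2.1
      have e0' := d3.1
      have e1 := d1.1
      have e1' := d1.2
      have s1 : qav p (br x.rep (P j).rep) = qav p (br (P j).rep x.rep) := by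
        rw [br_comm, AbsoluteValue.map_neg]
      have s2 : qav p (br x.rep (P k).rep) = qav p (br (P k).rep x.rep) := by
        rw [br_comm, AbsoluteValue.map_neg]
      have s3 : qav p (br z.rep x.rep) = qav p (br x.rep z.rep) := by
        rw [br_comm, AbsoluteValue.map_neg]
      rw [s1] at e0
      rw [s2] at e0'
      rw [hsub]
      simp only [y]
      rw [map_div₀, map_mul, map_mul, map_div₀, map_div₀, s3]
      set α := qav p (br (P j).rep (P k).rep)
      set β := qav p (br (P j).rep z.rep)
      set γ := qav p (br (P k).rep z.rep)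
      set ξ := qav p (br (P j).rep x.rep)
      set η := qav p (br (P k).rep x.rep)
      set ζ := qav p (br x.rep z.rep)
      -- `ξ = ζ N_j / N_z`, `η = ζ N_k / N_z`, `α = β N_k / N_z`
      have f1 : ξ = ζ * N (P j) / N z := by
        field_simp at e0 ⊢
        linarith
      have f2 : η = ζ * N (P k) / N z := by
        field_simp at e0' ⊢
        linarith
      have f3 : α = β * N (P k) / N z := by
        field_simp at e1 ⊢
        linarith
      refine ⟨?_, ?_⟩
      · rw [f3, f1, f2]
        field_simp
      · rw [f1, f2]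
        rw [div_le_div_iff₀ (by positivity) (by positivity)] at e1' ⊢
        have f4 : 0 < ζ / N z := by positivity
        have f5 : γ * (ζ * N (P j) / N z) = (γ * (N (P j) * N z)) * (ζ / N z) / N z := by
          field_simp
        have f6 : β * (ζ * N (P k) / N z) = (β * (N (P k) * N z)) * (ζ / N z) / N z := by
          field_simp
        rw [f5, f6]
        gcongr)
  omega

end Pool.Agent.T6.H83.FO
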