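import Pool.Agent.T6.H83.FO.Per1
import Pool.Agent.T6.H83.FO.Tail
import Pool.Agent.T6.H83.RM.Con10

set_option autoImplicit false

/-!
# Equidistant rational points, and charts
-/

namespace Pool.Agent.T6.H83.FO

open Finset
open Pool.Agent.TH856.PG (Pr qav)
open Pool.Agent.H892.PGK (PotGood PP fX br_zero_iff)
open Pool.Agent.H892.PGR (br nm dL nm_pos nm_smul br_smul dL_smul dL_ultra Phi phi_smul dL_phi_le
  sum_le)

/-- equidistant points -/
lemma equi_card {M : ℕ} (p : Pr) (Q : Fin M → PP ℚ) (N : PP ℚ → ℝ) (hN : ∀ x, 0 < N x) {t : ℝ}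
    (ht : 0 < t) (h : ∀ i j, i ≠ j →
      qav p (br (Q i).rep (Q j).rep) / (N (Q i) * N (Q j)) = t) : M ≤ p.1 + 1 := by
  classical
  rcases lt_or_ge M 3 with h3 | h3
  · have := p.2.two_le
    omega
  obtain ⟨a, b, c, hab, hac, hbc⟩ : ∃ a b c : Fin M, a ≠ b ∧ a ≠ c ∧ b ≠ c :=
    ⟨⟨0, by omega⟩, ⟨1, by omega⟩, ⟨2, by omega⟩, by simp, by simp, by simp⟩
  have hv : ∀ i j, i ≠ j → qav p (br (Q i).rep (Q j).rep) = t * (N (Q i) * N (Q j)) := by
    intro i j hij
    have h1 := hN (Q i)
    have h2 := hN (Q j)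
    rw [← h i j hij]
    field_simp
  have hb : ∀ i j, i ≠ j → br (Q i).rep (Q j).rep ≠ 0 := by
    intro i j hij h0
    have h1 := hN (Q i)
    have h2 := hN (Q j)
    have h4 := hv i j hij
    rw [h0, map_zero] at h4
    have : 0 < t * (N (Q i) * N (Q j)) := by positivity
    linarith
  set S : Finset (Fin M) := (univ.erase a).erase b with hS
  have hSc : S.card = M - 2 := by
    rw [hS, card_erase_of_mem (mem_erase.2 ⟨hab.symm, mem_univ _⟩), card_erase_of_mem (mem_univ _),
      card_univ, Fintype.card_fin]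
    omega
  have hSm : ∀ j ∈ S, j ≠ a ∧ j ≠ b := by
    intro j hj
    rw [hS, mem_erase, mem_erase] at hj
    exact ⟨hj.2.1, hj.1⟩
  let y : Fin M → ℚ := fun j => (br (Q j).rep (Q a).rep * br (Q c).rep (Q b).rep) /
    (br (Q j).rep (Q b).rep * br (Q c).rep (Q a).rep)
  have h4 := res_card p S y (fun j hj => by
      obtain ⟨ja, jb⟩ := hSm j hj
      simp only [y]
      have n1 := hN (Q j)
      have n2 := hN (Q a)
      have n3 := hN (Q b)
      have n4 := hN (Q c)
      rw [map_div₀, map_mul, map_mul, hv j a ja, hv c b hbc.symm, hv j b jb, hv c a hac.symm]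
      field_simp)
    (fun j hj k hk hjk => by
      obtain ⟨ja, jb⟩ := hSm j hj
      obtain ⟨ka, kb⟩ := hSm k hk
      have n1 := hN (Q j)
      have n2 := hN (Q a)
      have n3 := hN (Q b)
      have n4 := hN (Q c)
      have n5 := hN (Q k)
      have e1 : y j - y k = (br (Q j).rep (Q k).rep * br (Q a).rep (Q b).rep *
          br (Q c).rep (Q b).rep) / (br (Q j).rep (Q b).rep * br (Q k).rep (Q b).rep *
          br (Q c).rep (Q a).rep) := by
        simp only [y]
        have b1 := hb j b jb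
        have b2 := hb k b kb
        have b3 := hb c a hac.symm
        rw [div_sub_div _ _ (mul_ne_zero b1 b3) (mul_ne_zero b2 b3),
          div_eq_div_iff (mul_ne_zero (mul_ne_zero b1 b3) (mul_ne_zero b2 b3))
            (mul_ne_zero (mul_ne_zero b1 b2) b3)]
        have e2 : br (Q j).rep (Q a).rep * br (Q k).rep (Q b).rep -
            br (Q j).rep (Q b).rep * br (Q k).rep (Q a).rep =
            br (Q j).rep (Q k).rep * br (Q a).rep (Q b).rep := by
          unfold br; ring
        linear_combination (br (Q c).rep (Q b).rep * br (Q c).rep (Q a).rep *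
          (br (Q j).rep (Q b).rep * br (Q k).rep (Q b).rep * br (Q c).rep (Q a).rep)) * e2
      rw [e1, map_div₀, map_mul, map_mul, map_mul, map_mul, hv j k hjk, hv a b hab,
        hv c b hbc.symm, hv j b jb, hv k b kb, hv c a hac.symm]
      field_simp)
  omega

section chart

variable {L : Type} [Field L] (w : AbsoluteValue L ℝ)

lemma nm_c (u : Fin 2 → L) {c c' : Fin 2} (h : c ≠ c') : nm w u = max (w (u c')) (w (u c)) := by
  unfold nm
  fin_cases c <;> fin_cases c'
  · exact absurd rfl h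
  · exact max_comm _ _
  · rfl
  · exact absurd rfl h

lemma br_c (u v : Fin 2 → L) {c c' : Fin 2} (h : c ≠ c') :
    w (br u v) = w (u c' * v c - u c * v c') := by
  unfold br
  fin_cases c <;> fin_cases c'
  · exact absurd rfl h
  · show w (u 0 * v 1 - u 1 * v 0) = w (u 1 * v 0 - u 0 * v 1)
    rw [← AbsoluteValue.map_neg, neg_sub]
  · rfl
  · exact absurd rfl h

lemma dL_self (u : Fin 2 → L) : dL w u u = 0 := by
  unfold dL
  rw [show br u u = 0 by unfold br; ring, map_zero, zero_div]

variable (hna : ∀ x y : L, w (x + y) ≤ max (w x) (w y))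

include hna in
lemma chart {u v : Fin 2 → L} (hu : u ≠ 0) (hv : v ≠ 0) {c c' : Fin 2} (h : c ≠ c')
    (hc : w (v c') ≤ w (v c)) (hd : dL w u v < 1) : w (u c') ≤ w (u c) := by
  by_contra hcon
  push Not at hcon
  have h1 := nm_pos w hu
  have h2 := nm_pos w hv
  have e1 : nm w u = w (u c') := by rw [nm_c w u h]; exact max_eq_left hcon.le
  have e2 : nm w v = w (v c) := by rw [nm_c w v h]; exact max_eq_right hc
  have e3 : w (u c' * v c) ≤ w (br u v) := by
    rw [br_c w u v h]
    by_contra hcon2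
    push Not at hcon2
    have e4 : w (u c * v c') < w (u c' * v c) := by
      rw [map_mul, map_mul, ← e1, ← e2]
      rw [← e1] at hcon
      rw [← e2] at hc
      calc _ ≤ w (u c) * nm w v := mul_le_mul_of_nonneg_left hc (w.nonneg _)
        _ < _ := mul_lt_mul_of_pos_right hcon h2
    have e5 : u c' * v c = (u c' * v c - u c * v c') + u c * v c' := by ring
    have e6 := hna (u c' * v c - u c * v c') (u c * v c')
    rw [← e5] at e6
    exact absurd e6 (not_le.2 (max_lt hcon2 e4))
  have : 1 ≤ dL w u v := by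
    unfold dL
    rw [le_div_iff₀ (by positivity), one_mul, e1, e2, ← map_mul]
    exact e3
  linarith

lemma chart_dist {u v : Fin 2 → L} (hu : u ≠ 0) (hv : v ≠ 0) {c c' : Fin 2} (h : c ≠ c')
    (hcu : w (u c') ≤ w (u c)) (hcv : w (v c') ≤ w (v c)) :
    w (u c' / u c - v c' / v c) = dL w u v := by
  have h1 := nm_pos w hu
  have h2 := nm_pos w hv
  have e1 : nm w u = w (u c) := by rw [nm_c w u h]; exact max_eq_right hcu
  have e2 : nm w v = w (v c) := by rw [nm_c w v h]; exact max_eq_right hcv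
  have u0 : u c ≠ 0 := by
    intro h0
    rw [e1, h0, map_zero] at h1
    exact lt_irrefl _ h1
  have v0 : v c ≠ 0 := by
    intro h0
    rw [e2, h0, map_zero] at h2
    exact lt_irrefl _ h2
  unfold dL
  rw [div_sub_div _ _ u0 v0, map_div₀, map_mul, ← e1, ← e2, br_c w u v h]

/-- the point with coordinate `x` in the chart `c` -/
def pt (c : Fin 2) (x : L) : Fin 2 → L := fun i => if i = c then 1 else x

/-- the polynomial in the chart `c` -/
noncomputable def un (c : Fin 2) (H : MvPolynomial (Fin 2) L) : Polynomial L :=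
  MvPolynomial.aeval (fun i => if i = c then 1 else Polynomial.X) H

lemma un_eq {c c' : Fin 2} (h : c ≠ c') (H : MvPolynomial (Fin 2) L) :
    un c H = ∑ s ∈ H.support, Polynomial.C (H.coeff s) * Polynomial.X ^ (s c') := by
  unfold un
  rw [MvPolynomial.aeval_def, MvPolynomial.eval₂_eq']
  apply Finset.sum_congr rfl
  intro s _
  fin_cases c <;> fin_cases c'
  · exact absurd rfl h
  · simp [Fin.prod_univ_two]
  · simp [Fin.prod_univ_two]
  · exact absurd rfl h

lemma un_eval (c : Fin 2) (H : MvPolynomial (Fin 2) L) (x : L) :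
    (un c H).eval x = MvPolynomial.eval (pt c x) H := by
  unfold un
  have h1 : ∀ (y : Fin 2 → L) (H : MvPolynomial (Fin 2) L), MvPolynomial.aeval y H =
      MvPolynomial.eval y H := fun y H => DFunLike.congr_fun (MvPolynomial.coe_aeval_eq_eval y) H
  rw [← h1, ← Polynomial.coe_aeval_eq_eval]
  rw [MvPolynomial.comp_aeval_apply]
  congr 2
  ext i
  unfold pt
  split_ifs with h2
  · simp
  · simp

include hna in
lemma un_coeff {c c' : Fin 2} (h : c ≠ c') {H : MvPolynomial (Fin 2) L}
    (hH : ∀ s, w (H.coeff s) ≤ 1) (k : ℕ) : w ((un c H).coeff k) ≤ 1 := by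
  rw [un_eq h, Polynomial.finsetSum_coeff]
  refine sum_le w hna _ _ zero_le_one fun s _ => ?_
  rw [Polynomial.coeff_C_mul, Polynomial.coeff_X_pow]
  split_ifs
  · rw [mul_one]; exact hH s
  · rw [mul_zero, map_zero]; exact zero_le_one

include hna in
/-- coordinates on a residue class -/
theorem lin_data {F G : MvPolynomial (Fin 2) L} {e : ℕ} (hF : F.IsHomogeneous e)
    (hG : G.IsHomogeneous e) (hFi : ∀ s, w (F.coeff s) ≤ 1) (hGi : ∀ s, w (G.coeff s) ≤ 1)
    (hR : ∀ u : Fin 2 → L, nm w u = 1 → nm w (Phi F G u) = 1) {v : ℕ → Fin 2 → L}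
    (hv : ∀ i, v i ≠ 0) (hstep : ∀ i, ∃ μ : L, μ ≠ 0 ∧ v (i + 1) = μ • Phi F G (v i))
    (hδ : ∀ i, dL w (v i) (v 0) < 1) :
    ∃ (z : ℕ → L) (lam : L), (∀ i j, w (z i - z j) = dL w (v i) (v j)) ∧
      ∀ i j, z i ≠ z j → w (z (i + 1) - z (j + 1) - lam * (z i - z j)) < w (z i - z j) := by
  have key : ∀ c c' : Fin 2, c ≠ c' → w (v 0 c') ≤ w (v 0 c) →
      ∀ f g : Polynomial L, (∀ k, w (f.coeff k) ≤ 1) → (∀ k, w (g.coeff k) ≤ 1) →
      (∀ x, f.eval x = Phi F G (pt c x) c') → (∀ x, g.eval x = Phi F G (pt c x) c) →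
      ∃ (z : ℕ → L) (lam : L), (∀ i j, w (z i - z j) = dL w (v i) (v j)) ∧
      ∀ i j, z i ≠ z j → w (z (i + 1) - z (j + 1) - lam * (z i - z j)) < w (z i - z j) := by
    intro c c' hcc hc f g hf hg hf' hg'
    have h1 : ∀ i, w (v i c') ≤ w (v i c) := fun i => chart w hna (hv i) (hv 0) hcc hc (hδ i)
    have h2 : ∀ i, v i c ≠ 0 := by
      intro i h0
      have h3 := nm_pos w (hv i)
      rw [nm_c w (v i) hcc, max_eq_right (h1 i), h0, map_zero] at h3
      exact lt_irrefl _ h3
    set z : ℕ → L := fun i => v i c' / v i c with hz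
    have hdist : ∀ i j, w (z i - z j) = dL w (v i) (v j) := fun i j =>
      chart_dist w (hv i) (hv j) hcc (h1 i) (h1 j)
    have hz1 : ∀ i, w (z i) ≤ 1 := by
      intro i
      simp only [hz]
      rw [map_div₀, div_le_one (w.pos (h2 i))]
      exact h1 i
    have hvpt : ∀ i, v i = v i c • pt c (z i) := by
      intro i
      ext k
      simp only [Pi.smul_apply, smul_eq_mul, pt]
      split_ifs with hk
      · rw [hk, mul_one]
      · have hk' : k = c' := by
          fin_cases c <;> fin_cases c' <;> fin_cases k <;> simp_all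
        rw [hk', hz]
        simp only
        rw [mul_div_cancel₀ _ (h2 i)]
    have hPz : ∀ i, Phi F G (pt c (z i)) c' = z (i + 1) * Phi F G (pt c (z i)) c := by
      intro i
      obtain ⟨μ, hμ, h3⟩ := hstep i
      rw [hvpt i, phi_smul hF hG, smul_smul] at h3
      have h4 := congrFun h3 c
      have h5 := congrFun h3 c'
      simp only [Pi.smul_apply, smul_eq_mul] at h4 h5
      have h6 : z (i + 1) = v (i + 1) c' / v (i + 1) c := rfl
      have h7 := h2 (i + 1)
      rw [h6]
      rw [div_mul_eq_mul_div, eq_div_iff h7]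
      rw [h4, h5]
      ring
    have hP1 : ∀ i, w (Phi F G (pt c (z i)) c) = 1 := by
      intro i
      have h3 : nm w (pt c (z i)) = 1 := by
        rw [nm_c w _ hcc]
        unfold pt
        rw [if_neg hcc.symm, if_pos rfl, map_one]
        exact max_eq_right (hz1 i)
      have h4 := hR _ h3
      rw [nm_c w _ hcc, hPz, map_mul] at h4
      have h5 : w (z (i + 1)) * w (Phi F G (pt c (z i)) c) ≤ w (Phi F G (pt c (z i)) c) := by
        calc _ ≤ 1 * w (Phi F G (pt c (z i)) c) :=
              mul_le_mul_of_nonneg_right (hz1 _) (w.nonneg _)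
          _ = _ := one_mul _
      rwa [max_eq_right h5] at h4
    obtain ⟨lam, hlam⟩ := lin w hna hf hg hz1 (fun i => by rw [hdist]; exact hδ i)
      (fun i => by rw [hf', hg']; exact hPz i) (fun i => by rw [hg']; exact hP1 i)
    exact ⟨z, lam, hdist, hlam⟩
  rcases le_total (w (v 0 0)) (w (v 0 1)) with h | h
  · exact key 1 0 (by simp) h (un 1 F) (un 1 G) (un_coeff w hna (c' := 0) (by simp) hFi)
      (un_coeff w hna (c' := 0) (by simp) hGi) (fun x => un_eval 1 F x) (fun x => un_eval 1 G x)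
  · exact key 0 1 (by simp) h (un 0 G) (un 0 F) (un_coeff w hna (c' := 1) (by simp) hGi)
      (un_coeff w hna (c' := 1) (by simp) hFi) (fun x => un_eval 0 G x) (fun x => un_eval 0 F x)

end chart

end Pool.Agent.T6.H83.FO
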