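import Pool.Agent.T6.H83.FO.Per2

set_option autoImplicit false

/-!
# The period at a prime of potentially good reduction which does not divide it
-/

namespace Pool.Agent.T6.H83.FO

open Finset MvPolynomial
open Pool.Agent.TH856.PG (Pr qav dL_le_one)
open Pool.Agent.H892.PGK (PotGood PP fX br_zero_iff)
open Pool.Agent.H892.PGR (br nm dL nm_pos nm_smul br_smul dL_smul dL_ultra Phi phi_smul dL_phi_le
  sum_le)
open Pool.Agent.T6.H83.RM (It It_hom It_integral Phi_It)

/-- coordinates over an extension with an absolute value -/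
theorem local_full {F G : MvPolynomial (Fin 2) ℚ} {d : ℕ} {a : AbsoluteValue ℚ ℝ}
    (h : ∀ v : Fin 2 → ℚ, v ≠ 0 → Phi F G v ≠ 0) (hp : PotGood a F G d) :
    ∃ (L : Type) (_ : Field L) (w : AbsoluteValue L ℝ) (F₁ G₁ : MvPolynomial (Fin 2) L)
      (B : PP ℚ → Fin 2 → L) (N : PP ℚ → ℝ), (∀ x y : L, w (x + y) ≤ max (w x) (w y)) ∧
      (∀ n : ℕ, w (n : L) = a n) ∧ F₁.IsHomogeneous d ∧ G₁.IsHomogeneous d ∧
      (∀ s, w (F₁.coeff s) ≤ 1) ∧ (∀ s, w (G₁.coeff s) ≤ 1) ∧
      (∀ u : Fin 2 → L, nm w u = 1 → nm w (Phi F₁ G₁ u) = 1) ∧ (∀ x, B x ≠ 0) ∧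
      (∀ x, 0 < N x) ∧ (∀ x y : PP ℚ, a (br x.rep y.rep) / (N x * N y) = dL w (B x) (B y)) ∧
      ∀ x, ∃ μ : L, μ ≠ 0 ∧ B (fX F G h x) = μ • Phi F₁ G₁ (B x) := by
  obtain ⟨L, i1, i2, w, A, c, F₁, G₁, hna, hw, hA, hc, hF₁, hG₁, hFi, hGi, hR, hconj⟩ := hp
  let ι : (Fin 2 → ℚ) → (Fin 2 → L) := fun v i => algebraMap ℚ L (v i)
  have hι : ∀ v, v ≠ 0 → ι v ≠ 0 := by
    intro v hv h0
    apply hv
    ext i
    have : algebraMap ℚ L (v i) = 0 := congrFun h0 i
    exact (map_eq_zero _).mp this
  let B : PP ℚ → (Fin 2 → L) := fun x => A.mulVec (ι x.rep)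
  have hA0 : ∀ u : Fin 2 → L, u ≠ 0 → A.mulVec u ≠ 0 := by
    intro u hu h0
    exact hu (Matrix.eq_zero_of_mulVec_eq_zero hA h0)
  have hB : ∀ x, B x ≠ 0 := fun x => hA0 _ (hι _ x.rep_nonzero)
  have hD : 0 < w A.det := w.pos hA
  have hbrA : ∀ u v : Fin 2 → L, br (A.mulVec u) (A.mulVec v) = A.det * br u v := by
    intro u v
    unfold br
    rw [Matrix.det_fin_two]
    simp only [Matrix.mulVec, dotProduct, Fin.sum_univ_two]
    ring
  have hbrι : ∀ u v : Fin 2 → ℚ, br (ι u) (ι v) = algebraMap ℚ L (br u v) := by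
    intro u v
    unfold br
    simp only [ι, map_sub, map_mul]
  have hδ : ∀ x y : PP ℚ, a (br x.rep y.rep) /
      (nm w (B x) / Real.sqrt (w A.det) * (nm w (B y) / Real.sqrt (w A.det))) =
        dL w (B x) (B y) := by
    intro x y
    unfold dL
    simp only [B]
    rw [hbrA, hbrι, map_mul, hw]
    have h1 := nm_pos w (hB x)
    have h2 := nm_pos w (hB y)
    simp only [B] at h1 h2
    have h3 : Real.sqrt (w A.det) * Real.sqrt (w A.det) = w A.det := Real.mul_self_sqrt hD.le
    have h4 : 0 < Real.sqrt (w A.det) := Real.sqrt_pos.mpr hD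
    rw [div_mul_div_comm, h3]
    field_simp
  refine ⟨L, i1, w, F₁, G₁, B, fun x => nm w (B x) / Real.sqrt (w A.det), hna, ?_, hF₁, hG₁, hFi,
    hGi, hR, hB, ?_, hδ, ?_⟩
  · intro n
    rw [← hw, map_natCast (algebraMap ℚ L)]
  · intro x
    have h1 := nm_pos w (hB x)
    have h4 : 0 < Real.sqrt (w A.det) := Real.sqrt_pos.mpr hD
    positivity
  · intro x
    obtain ⟨b, ha⟩ := Projectivization.exists_smul_eq_mk_rep ℚ (Phi F G x.rep)
      (h _ x.rep_nonzero)
    refine ⟨algebraMap ℚ L (b : ℚ) * c,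
      mul_ne_zero ((map_ne_zero (algebraMap ℚ L)).mpr b.ne_zero) hc, ?_⟩
    have h1 : (fX F G h x).rep = (b : ℚ) • Phi F G x.rep := by
      unfold fX
      rw [← ha]; rfl
    have h2 : ι ((b : ℚ) • Phi F G x.rep) = algebraMap ℚ L (b : ℚ) •
        Phi (F.map (algebraMap ℚ L)) (G.map (algebraMap ℚ L)) (ι x.rep) := by
      have hev : ∀ H : MvPolynomial (Fin 2) ℚ,
          algebraMap ℚ L (eval x.rep H) = eval (ι x.rep) (H.map (algebraMap ℚ L)) := by
        intro H
        rw [eval_map]
        exact eval₂_comp (algebraMap ℚ L) x.rep H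
      ext i
      fin_cases i
      · change algebraMap ℚ L ((b : ℚ) * eval x.rep F) = algebraMap ℚ L (b : ℚ) *
          eval (ι x.rep) (F.map (algebraMap ℚ L))
        rw [map_mul, hev]
      · change algebraMap ℚ L ((b : ℚ) * eval x.rep G) = algebraMap ℚ L (b : ℚ) *
          eval (ι x.rep) (G.map (algebraMap ℚ L))
        rw [map_mul, hev]
    simp only [B]
    rw [h1, h2, Matrix.mulVec_smul, hconj, smul_smul]

/-- the period is at most `(p + 1) ^ 2` if `p` does not divide it -/
theorem period_le {F G : MvPolynomial (Fin 2) ℚ} {d : ℕ}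
    (h : ∀ v : Fin 2 → ℚ, v ≠ 0 → Phi F G v ≠ 0) (p : Pr) (hp : PotGood (qav p) F G d)
    {x : PP ℚ} {n : ℕ} (hn : Function.minimalPeriod (fX F G h) x = n) (hpos : 0 < n)
    (hpn : ¬ p.1 ∣ n) : n ≤ (p.1 + 1) ^ 2 := by
  classical
  obtain ⟨L, i1, w, F₁, G₁, B, N, hna, hw, hF₁, hG₁, hFi, hGi, hR, hB, hN, hδN, hstep⟩ :=
    local_full h hp
  set f := fX F G h with hf
  set δ : PP ℚ → PP ℚ → ℝ := fun x y => dL w (B x) (B y) with hδ
  have hself : ∀ x, δ x x = 0 := fun x => dL_self w (B x)
  have hle1 : ∀ x y, δ x y ≤ 1 := fun x y => dL_le_one w hna (hB x) (hB y)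
  have hultra : ∀ x y z, δ x z ≤ max (δ x y) (δ y z) := fun x y z =>
    dL_ultra w hna (hB x) (hB y) (hB z)
  have hsymm : ∀ x y, δ x y = δ y x := by
    intro x y
    simp only [hδ]
    rw [← hδN, ← hδN, br_comm, AbsoluteValue.map_neg, mul_comm (N x)]
  have hnonexp : ∀ x y, δ (f x) (f y) ≤ δ x y := by
    intro x y
    obtain ⟨μ, hμ, h1⟩ := hstep x
    obtain ⟨ν, hν, h2⟩ := hstep y
    simp only [hδ]
    rw [h1, h2, dL_smul w hμ hν]
    exact dL_phi_le w hna hF₁ hG₁ hFi hGi hR (hB x) (hB y)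
  have hposd : ∀ x y, x ≠ y → 0 < δ x y := by
    intro x y hxy
    simp only [hδ]
    rw [← hδN]
    exact div_pos (qav_pos p (br_ne hxy)) (mul_pos (hN x) (hN y))
  have hnonexp' : ∀ k x y, δ (f^[k] x) (f^[k] y) ≤ δ x y := by
    intro k
    induction k with
    | zero => intro x y; exact le_rfl
    | succ k ih =>
      intro x y
      rw [Function.iterate_succ_apply', Function.iterate_succ_apply']
      exact (hnonexp _ _).trans (ih x y)
  have hper : ∀ i l, f^[i + n * l] x = f^[i] x := by
    intro i l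
    have h1 : Function.IsPeriodicPt f n x := by
      rw [← hn]; exact Function.isPeriodicPt_minimalPeriod f x
    rw [Function.iterate_add_apply]
    rw [(h1.mul_const l)]
  have hiso : ∀ l i j, δ (f^[i + l] x) (f^[j + l] x) = δ (f^[i] x) (f^[j] x) := by
    intro l i j
    apply le_antisymm
    · have := hnonexp' l (f^[i] x) (f^[j] x)
      rwa [← Function.iterate_add_apply, ← Function.iterate_add_apply, add_comm l, add_comm l]
        at this
    · have h1 := hnonexp' (n * l - l) (f^[i + l] x) (f^[j + l] x)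
      have hle : l ≤ n * l := Nat.le_mul_of_pos_left l hpos
      rw [← Function.iterate_add_apply, ← Function.iterate_add_apply,
        show n * l - l + (i + l) = i + n * l by omega,
        show n * l - l + (j + l) = j + n * l by omega, hper, hper] at h1
      exact h1
  set D : ℕ → ℝ := fun k => δ (f^[k] x) x with hD
  have hDd : ∀ i k, δ (f^[i + k] x) (f^[i] x) = D k := by
    intro i k
    have := hiso i k 0
    rw [zero_add, add_comm k i] at this
    exact this
  have hDn : ∀ l, D (n * l) = 0 := by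
    intro l
    have := hper 0 l
    rw [zero_add] at this
    simp only [hD]
    rw [this]
    exact hself x
  have hex : ∃ k, 0 < k ∧ D k < 1 := ⟨n, hpos, by
    have := hDn 1
    rw [mul_one] at this
    rw [this]; exact zero_lt_one⟩
  obtain ⟨m, ⟨hm0, hm1⟩, hmin⟩ : ∃ m, (0 < m ∧ D m < 1) ∧ ∀ k, k < m → ¬ (0 < k ∧ D k < 1) :=
    ⟨Nat.find hex, Nat.find_spec hex, fun k hk => Nat.find_min hex hk⟩
  have hDk : ∀ k, 0 < k → k < m → D k = 1 := by
    intro k h1 h2
    have h3 := hmin k h2
    push Not at h3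
    exact le_antisymm (hle1 _ _) (h3 h1)
  have hDmul : ∀ q, D (m * q) < 1 := by
    intro q
    induction q with
    | zero =>
      rw [mul_zero]
      simp only [hD]
      rw [Function.iterate_zero, id_eq, hself]
      exact zero_lt_one
    | succ q ih =>
      have h1 := hultra (f^[m * (q + 1)] x) (f^[m * q] x) x
      have h2 : δ (f^[m * (q + 1)] x) (f^[m * q] x) = D m := by
        rw [mul_add, mul_one]
        exact hDd _ _
      rw [h2] at h1
      exact lt_of_le_of_lt h1 (max_lt hm1 ih)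
  have hmn : m ∣ n := by
    rw [Nat.dvd_iff_mod_eq_zero]
    by_contra hr
    have hlt : n % m < m := Nat.mod_lt _ hm0
    have h1 := hmin (n % m) hlt
    apply h1
    refine ⟨Nat.pos_of_ne_zero hr, ?_⟩
    have h2 := hDd (m * (n / m)) (n % m)
    rw [Nat.div_add_mod n m] at h2
    have h3 : f^[n] x = x := by
      have := hper 0 1
      rwa [zero_add, mul_one] at this
    rw [h3, hsymm] at h2
    rw [← h2]
    exact hDmul _
  obtain ⟨M, hM⟩ := hmn
  have hMpos : 0 < M := by
    rcases Nat.eq_zero_or_pos M with h0 | h0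
    · rw [h0, mul_zero] at hM; omega
    · exact h0
  -- the number of residue classes
  have hmp : m ≤ p.1 + 1 := by
    apply equi_card p (fun i : Fin m => f^[i.1] x) N hN (t := 1) zero_lt_one
    have key : ∀ i j : Fin m, i.1 < j.1 → δ (f^[i.1] x) (f^[j.1] x) = 1 := by
      intro i j hij
      have h1 := hDd i.1 (j.1 - i.1)
      rw [show i.1 + (j.1 - i.1) = j.1 by omega] at h1
      rw [hsymm, h1]
      exact hDk _ (by omega) (by omega)
    intro i j hij
    show qav p (br (f^[i.1] x).rep (f^[j.1] x).rep) / (N (f^[i.1] x) * N (f^[j.1] x)) = 1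
    rw [hδN]
    rcases lt_or_gt_of_ne (fun h => hij (Fin.ext h) : i.1 ≠ j.1) with h1 | h1
    · exact key i j h1
    · have := key j i h1
      rw [hsymm] at this
      exact this
  -- the points of one residue class
  have hMp : M ≤ p.1 + 1 := by
    rcases Nat.lt_or_ge M 2 with hM2 | hM2
    · have := p.2.two_le
      omega
    have hiter : ∀ k y, ∃ μ : L, μ ≠ 0 ∧ B (f^[k] y) =
        μ • Phi (It F₁ G₁ k 0) (It F₁ G₁ k 1) (B y) := by
      intro k y
      rw [Phi_It]
      induction k with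
      | zero => exact ⟨1, one_ne_zero, by simp⟩
      | succ k ih =>
        obtain ⟨μ, hμ, h1⟩ := ih
        obtain ⟨ν, hν, h2⟩ := hstep (f^[k] y)
        refine ⟨ν * μ ^ d, mul_ne_zero hν (pow_ne_zero _ hμ), ?_⟩
        rw [Function.iterate_succ_apply', Function.iterate_succ_apply', h2, h1,
          phi_smul hF₁ hG₁, smul_smul]
    have hRk : ∀ k, ∀ u : Fin 2 → L, nm w u = 1 →
        nm w (Phi (It F₁ G₁ k 0) (It F₁ G₁ k 1) u) = 1 := by
      intro k u hu
      rw [Phi_It]
      induction k with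
      | zero => exact hu
      | succ k ih =>
        rw [Function.iterate_succ_apply']
        exact hR _ ih
    obtain ⟨z, lam, hz1, hz2⟩ := lin_data w hna (It_hom hF₁ hG₁ m 0) (It_hom hF₁ hG₁ m 1)
      (It_integral hna hFi hGi m 0) (It_integral hna hFi hGi m 1) (hRk m)
      (v := fun i => B (f^[m * i] x)) (fun i => hB _)
      (fun i => by
        have := hiter m (f^[m * i] x)
        rw [← Function.iterate_add_apply, show m + m * i = m * (i + 1) by ring] at this
        exact this)
      (fun i => by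
        show δ (f^[m * i] x) (f^[m * 0] x) < 1
        rw [mul_zero]
        exact hDmul i)
    have hz1' : ∀ i j, w (z i - z j) = δ (f^[m * i] x) (f^[m * j] x) := hz1
    have hzD : ∀ i k, w (z (i + k) - z i) = D (m * k) := by
      intro i k
      rw [hz1', mul_add]
      exact hDd _ _
    have hfx : ∀ k, 0 < k → k < M → f^[m * k] x ≠ x := by
      intro k h1 h2 h3
      have h4 : Function.IsPeriodicPt f (m * k) x := h3
      have h5 := h4.minimalPeriod_le (Nat.mul_pos hm0 h1)
      rw [hn, hM] at h5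
      have h6 : m * k < m * M := Nat.mul_lt_mul_of_pos_left h2 hm0
      omega
    have hcyc := cyc_equi w hna hM2 (z := z) (fun i => by
        have h1 : w (z (i + M) - z i) = 0 := by
          rw [hzD, ← hM]
          have := hDn 1
          rwa [mul_one] at this
        exact sub_eq_zero.1 (w.eq_zero.1 h1))
      (by
        rw [hw]
        have hF := Fact.mk p.2
        have h1 : ¬ p.1 ∣ M := fun h2 => hpn (by rw [hM]; exact h2.mul_left m)
        rw [Pool.Agent.TH856.PG.qav_eq]
        have h3 : padicNorm p.1 (M : ℚ) = 1 := padicNorm.nat_eq_one_iff M |>.2 h1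
        exact_mod_cast h3)
      (fun i j => by
        rw [hz1', hz1', mul_add, mul_add, mul_one]
        exact hiso m _ _)
      (fun k h1 h2 h3 => by
        have h4 : w (z k - z 0) = 0 := by rw [h3, sub_self, map_zero]
        rw [hz1', mul_zero] at h4
        exact absurd h4 (hposd _ _ (hfx k h1 h2)).ne')
      hz2
    apply equi_card p (fun i : Fin M => f^[m * i.1] x) N hN (t := w (z 1 - z 0))
    · rw [hz1', mul_zero]
      exact hposd _ _ (hfx 1 (by omega) (by omega))
    · have key : ∀ i j : Fin M, i.1 < j.1 →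
          δ (f^[m * i.1] x) (f^[m * j.1] x) = w (z 1 - z 0) := by
        intro i j hij
        have h1 := hzD i.1 (j.1 - i.1)
        have h2 := hzD 0 (j.1 - i.1)
        rw [zero_add] at h2
        rw [show i.1 + (j.1 - i.1) = j.1 by omega, ← h2,
          hcyc _ (by omega) (by omega), hz1', hsymm] at h1
        exact h1
      intro i j hij
      show qav p (br (f^[m * i.1] x).rep (f^[m * j.1] x).rep) /
        (N (f^[m * i.1] x) * N (f^[m * j.1] x)) = _
      rw [hδN]
      rcases lt_or_gt_of_ne (fun h => hij (Fin.ext h) : i.1 ≠ j.1) with h1 | h1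
      · exact key i j h1
      · have := key j i h1
        rw [hsymm] at this
        exact this
  rw [hM, pow_two]
  exact Nat.mul_le_mul hmp hMp

end Pool.Agent.T6.H83.FO
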